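import Mathlib

/-!
Definitions for the hypergraph discrepancy Ramsey function (MP_cdf3db_co).
-/

set_option autoImplicit false

namespace Pool.Agent.HDisc

/-- The 2-colouring `χ` of the `t`-element subsets of `Fin n` (its values on sets of other sizes
play no role) is `α`-balanced above `f`: every set `X` with at least `f` elements has more than
`α * (|X| choose t)` of its `t`-subsets in each of the two colours. -/
def IsBalancedAbove (t : ℕ) (α : ℝ) {n : ℕ} (χ : Finset (Fin n) → Bool) (f : ℕ) : Prop :=
  ∀ X : Finset (Fin n), f ≤ X.card → ∀ b : Bool,
    α * (X.card.choose t : ℝ) < (((X.powersetCard t).filter (fun e => χ e = b)).card : ℝ)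

/-- `F t n α` is the least `f` for which some 2-colouring of the `t`-subsets of an `n`-element set
is `α`-balanced above `f` (such `f` exist, since `f = n + 1` always works). -/
noncomputable def F (t n : ℕ) (α : ℝ) : ℕ :=
  sInf {f : ℕ | ∃ χ : Finset (Fin n) → Bool, IsBalancedAbove t α χ f}

end Pool.Agent.HDisc
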