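import Mathlib

/-!
The pattern lemma: among all colour patterns on the transversals of random tuples, some constant
pattern is (up to a factor `m ^ d`) at least as likely as any given pattern.
-/

set_option autoImplicit false

namespace Pool.Agent.HDisc

open Finset

variable {ι Y C : Type*} [Fintype ι] [DecidableEq ι] [Fintype Y] {m : ℕ}

open Classical in
/-- Number of arrays `V` all of whose transversals have the colours prescribed by `σ`. -/
noncomputable def cnt (G : (ι → Y) → C) (σ : (ι → Fin m) → C) : ℕ :=
  (Finset.univ.filter (fun V : ι → Fin m → Y => ∀ k, G (fun i => V i (k i)) = σ k)).card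

/-- The array obtained from `W` by inserting the row `v` at `i`. -/
def ins (i : ι) (v : Fin m → Y) (W : {j // j ≠ i} → Fin m → Y) : ι → Fin m → Y :=
  fun j => if h : j = i then v else W ⟨j, h⟩

/-- The transversal with entry `y` at `i` and the entries of `W` elsewhere. -/
def tr (i : ι) (y : Y) (W : {j // j ≠ i} → Fin m → Y) (k : ι → Fin m) : ι → Y :=
  fun j => if h : j = i then y else W ⟨j, h⟩ (k j)

omit [Fintype ι] [Fintype Y] in
lemma ins_tr (i : ι) (v : Fin m → Y) (W : {j // j ≠ i} → Fin m → Y) (k : ι → Fin m) :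
    (fun j => ins i v W j (k j)) = tr i (v (k i)) W k := by
  funext j
  unfold ins tr
  by_cases h : j = i
  · subst h; simp
  · simp [h]

open Classical in
/-- The admissible entries for index `a` in row `i`. -/
noncomputable def adm (G : (ι → Y) → C) (σ : (ι → Fin m) → C) (i : ι)
    (W : {j // j ≠ i} → Fin m → Y) (a : Fin m) : Finset Y :=
  Finset.univ.filter (fun y => ∀ k : ι → Fin m, k i = a → G (tr i y W k) = σ k)

/-- The pattern obtained by freezing the `i`-th index at `a`. -/
def frz (σ : (ι → Fin m) → C) (i : ι) (a : Fin m) : (ι → Fin m) → C :=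
  fun k => σ (Function.update k i a)

lemma adm_frz (G : (ι → Y) → C) (σ : (ι → Fin m) → C) (i : ι)
    (W : {j // j ≠ i} → Fin m → Y) (a b : Fin m) : adm G (frz σ i a) i W b = adm G σ i W a := by
  classical
  have htr : ∀ (y : Y) (k : ι → Fin m) (c : Fin m), tr i y W (Function.update k i c) = tr i y W k := by
    intro y k c
    funext j
    unfold tr
    by_cases h : j = i
    · simp [h]
    · simp [h]
  unfold adm
  ext y
  simp only [Finset.mem_filter, Finset.mem_univ, true_and]
  constructor
  · intro h k hk
    have h1 := h (Function.update k i b) (by simp)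
    rw [htr] at h1
    rw [h1]
    unfold frz
    rw [Function.update_idem]
    congr 1
    rw [← hk]
    exact Function.update_eq_self i k
  · intro h k hk
    have h1 := h (Function.update k i a) (by simp)
    rw [htr] at h1
    exact h1

lemma cnt_eq (G : (ι → Y) → C) (σ : (ι → Fin m) → C) (i : ι) :
    cnt G σ = ∑ W : {j // j ≠ i} → Fin m → Y, ∏ a : Fin m, (adm G σ i W a).card := by
  classical
  have h1 : cnt G σ = ∑ W : {j // j ≠ i} → Fin m → Y,
      (Finset.univ.filter (fun v : Fin m → Y => ∀ a, v a ∈ adm G σ i W a)).card := by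
    unfold cnt
    rw [← Finset.card_sigma]
    refine Finset.card_bij' (fun V _ => ⟨fun j => V j.1, V i⟩) (fun p _ => ins i p.2 p.1) ?_ ?_ ?_ ?_
    · intro V hV
      simp only [Finset.mem_filter, Finset.mem_univ, true_and] at hV
      simp only [Finset.mem_sigma, Finset.mem_univ, Finset.mem_filter, true_and]
      intro a
      simp only [adm, Finset.mem_filter, Finset.mem_univ, true_and]
      intro k hk
      rw [← hV k]
      congr 1
      funext j
      unfold tr
      by_cases h : j = i
      · subst h; simp [hk]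
      · simp [h]
    · rintro ⟨W, v⟩ hp
      simp only [Finset.mem_sigma, Finset.mem_univ, Finset.mem_filter, true_and] at hp
      simp only [Finset.mem_filter, Finset.mem_univ, true_and]
      intro k
      rw [ins_tr]
      have h2 := hp (k i)
      simp only [adm, Finset.mem_filter, Finset.mem_univ, true_and] at h2
      exact h2 k rfl
    · intro V _
      funext j
      unfold ins
      by_cases h : j = i
      · subst h; simp
      · simp [h]
    · rintro ⟨W, v⟩ _
      unfold ins
      simp only [dite_true, Subtype.coe_eta, Sigma.mk.injEq, heq_eq_eq, and_true]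
      funext j
      rw [dif_neg j.2]
  rw [h1]
  refine Finset.sum_congr rfl (fun W _ => ?_)
  have h3 : (Finset.univ.filter (fun v : Fin m → Y => ∀ a, v a ∈ adm G σ i W a)) =
      Fintype.piFinset (fun a => adm G σ i W a) := by
    ext v
    simp
  rw [h3, Fintype.card_piFinset]

lemma prod_le_sum_pow {m : ℕ} (hm : 0 < m) (J : Fin m → ℕ) : ∏ a, J a ≤ ∑ a, (J a) ^ m := by
  have : Nonempty (Fin m) := ⟨⟨0, hm⟩⟩
  obtain ⟨a, ha⟩ := exists_eq_ciSup_of_finite (f := J)
  have h1 : ∀ b, J b ≤ J a := fun b => ha ▸ le_ciSup (Set.finite_range J).bddAbove b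
  calc ∏ b, J b ≤ ∏ _b : Fin m, J a := Finset.prod_le_prod' (fun b _ => h1 b)
    _ = (J a) ^ m := by simp
    _ ≤ ∑ a, (J a) ^ m := Finset.single_le_sum (f := fun a => (J a) ^ m) (fun _ _ => Nat.zero_le _) (Finset.mem_univ a)

/-- One direction: freezing a suitable index loses at most a factor `m`. -/
lemma cnt_step (hm : 0 < m) (G : (ι → Y) → C) (σ : (ι → Fin m) → C) (i : ι) :
    ∃ a, cnt G σ ≤ m * cnt G (frz σ i a) := by
  classical
  have : Nonempty (Fin m) := ⟨⟨0, hm⟩⟩
  have h1 : cnt G σ ≤ ∑ a : Fin m, cnt G (frz σ i a) := by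
    rw [cnt_eq G σ i]
    have h2 : ∀ a, cnt G (frz σ i a) = ∑ W : {j // j ≠ i} → Fin m → Y, (adm G σ i W a).card ^ m := by
      intro a
      rw [cnt_eq G (frz σ i a) i]
      refine Finset.sum_congr rfl (fun W _ => ?_)
      rw [Finset.prod_congr rfl (fun b _ => by rw [adm_frz G σ i W a b])]
      simp
    simp only [h2]
    rw [Finset.sum_comm]
    exact Finset.sum_le_sum (fun W _ => prod_le_sum_pow hm _)
  obtain ⟨a, ha⟩ := exists_eq_ciSup_of_finite (f := fun a => cnt G (frz σ i a))
  refine ⟨a, h1.trans ?_⟩
  have h3 : ∀ b, cnt G (frz σ i b) ≤ cnt G (frz σ i a) := fun b =>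
    (le_ciSup (Set.finite_range (fun a => cnt G (frz σ i a))).bddAbove b).trans ha.ge
  calc ∑ b : Fin m, cnt G (frz σ i b) ≤ ∑ _b : Fin m, cnt G (frz σ i a) :=
        Finset.sum_le_sum (fun b _ => h3 b)
    _ = m * cnt G (frz σ i a) := by simp

/-- The pattern lemma. -/
theorem exists_const_pattern (hm : 0 < m) (G : (ι → Y) → C) (σ : (ι → Fin m) → C) :
    ∃ c : C, cnt G σ ≤ m ^ (Fintype.card ι) * cnt G (fun _ : ι → Fin m => c) := by
  classical
  have key : ∀ S : Finset ι, ∃ κ : ι → Fin m,
      cnt G σ ≤ m ^ S.card * cnt G (fun k => σ (fun j => if j ∈ S then κ j else k j)) := by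
    intro S
    induction S using Finset.induction_on with
    | empty =>
      refine ⟨fun _ => ⟨0, hm⟩, ?_⟩
      simp
    | insert i S hi ih =>
      obtain ⟨κ, hκ⟩ := ih
      obtain ⟨a, ha⟩ := cnt_step hm G (fun k => σ (fun j => if j ∈ S then κ j else k j)) i
      refine ⟨Function.update κ i a, ?_⟩
      have h1 : frz (fun k => σ (fun j => if j ∈ S then κ j else k j)) i a =
          (fun k : ι → Fin m => σ (fun j => if j ∈ insert i S then Function.update κ i a j else k j)) := by
        funext k
        unfold frz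
        refine congrArg σ ?_
        funext j
        by_cases hj : j = i
        · subst hj; simp [hi]
        · simp [hj]
      rw [h1] at ha
      rw [Finset.card_insert_of_notMem hi, pow_succ, mul_assoc]
      exact hκ.trans (Nat.mul_le_mul_left _ ha)
  obtain ⟨κ, hκ⟩ := key Finset.univ
  refine ⟨σ κ, ?_⟩
  simpa using hκ

end Pool.Agent.HDisc
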