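import Mathlib
import Pool.Agent.HDisc.Pattern

/-!
Large homogeneous multipartite structures in 2-colourings of `t`-sets: `2 ^ (A * s ^ (t-1))`
points per class are enough to find `d` disjoint `s`-sets such that the colour of a transversal
`t`-set depends only on the classes it meets.
-/

set_option autoImplicit false

namespace Pool.Agent.HDisc

open Finset

/-- Few functions `Fin m → Fin N` have at most `s` values. -/
lemma card_few_values {m N s : ℕ} (hm : 0 < m) :
    (Finset.univ.filter (fun v : Fin m → Fin N => (Finset.univ.image v).card ≤ s)).card ≤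
      N ^ s * s ^ m := by
  classical
  have h1 : (Finset.univ.filter (fun v : Fin m → Fin N => (Finset.univ.image v).card ≤ s)) ⊆
      (Finset.univ : Finset ((Fin s → Fin N) × (Fin m → Fin s))).image (fun p => p.1 ∘ p.2) := by
    intro v hv
    simp only [Finset.mem_filter, Finset.mem_univ, true_and] at hv
    simp only [Finset.mem_image, Finset.mem_univ, true_and]
    set R := Finset.univ.image v with hR
    let e : R ≃ Fin R.card := R.equivFin
    have hvR : ∀ a, v a ∈ R := fun a => Finset.mem_image_of_mem v (Finset.mem_univ a)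
    let g : Fin m → Fin s := fun a => Fin.castLE hv (e ⟨v a, hvR a⟩)
    let f : Fin s → Fin N := fun j => if h : (j : ℕ) < R.card then (e.symm ⟨j, h⟩).1 else v ⟨0, hm⟩
    refine ⟨(f, g), ?_⟩
    funext a
    simp only [Function.comp, f, g, Fin.val_castLE]
    rw [dif_pos (e ⟨v a, hvR a⟩).2]
    simp
  calc _ ≤ _ := Finset.card_le_card h1
    _ ≤ _ := Finset.card_image_le
    _ = N ^ s * s ^ m := by simp [Fintype.card_prod, Finset.card_univ]

lemma exists_fiber {A T : Type*} [Fintype A] [Fintype T] [DecidableEq T] (H : A → T)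
    (hA : 0 < Fintype.card A) :
    ∃ a : A, Fintype.card A ≤ Fintype.card T * (Finset.univ.filter (fun x => H x = H a)).card := by
  classical
  by_contra hcon
  push Not at hcon
  have hne : Nonempty A := Fintype.card_pos_iff.mp hA
  have h1 : ∀ τ : T, Fintype.card T * (Finset.univ.filter (fun x => H x = τ)).card < Fintype.card A := by
    intro τ
    by_cases h : ∃ a, H a = τ
    · obtain ⟨a, ha⟩ := h
      rw [← ha]; exact hcon a
    · have : (Finset.univ.filter (fun x => H x = τ)) = ∅ := by
        rw [Finset.filter_eq_empty_iff]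
        intro x _ hx
        exact h ⟨x, hx⟩
      rw [this]; simpa using hA
  have hT : (Finset.univ : Finset T).Nonempty := ⟨H hne.some, Finset.mem_univ _⟩
  have h2 : ∑ τ : T, Fintype.card T * (Finset.univ.filter (fun x => H x = τ)).card <
      ∑ _τ : T, Fintype.card A := Finset.sum_lt_sum_of_nonempty hT (fun τ _ => h1 τ)
  rw [← Finset.mul_sum, ← Finset.card_eq_sum_card_fiberwise (f := H) (s := Finset.univ) (t := Finset.univ)
    (fun _ _ => Finset.mem_univ _)] at h2
  simp at h2

/-- Homogeneous multipartite structures. -/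
theorem exists_multipartite {n : ℕ} (t d s N : ℕ) (hs : 0 < s) (hd : 0 < d) (χ : Finset (Fin n) → Bool)
    (emb : Fin d → Fin N → Fin n) (hinj : ∀ i i' y y', emb i y = emb i' y' → i = i' ∧ y = y')
    (hN : d * s ^ (2 * s) * 2 ^ ((2 * s) ^ t * d.choose t) * (2 * s) ^ d < N ^ s) :
    ∃ (Q : Fin d → Finset (Fin n)) (c : Finset (Fin d) → Bool),
      (∀ i, (Q i).card = s) ∧ (∀ i j, i ≠ j → Disjoint (Q i) (Q j)) ∧
      ∀ I : Finset (Fin d), I.card = t → ∀ x : Fin d → Fin n, (∀ i ∈ I, x i ∈ Q i) →
        χ (I.image x) = c I := by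
  classical
  have hNpos : 0 < N := by
    rcases Nat.eq_zero_or_pos N with h | h
    · rw [h, zero_pow hs.ne'] at hN; exact absurd hN (Nat.not_lt_zero _)
    · exact h
  set m := 2 * s with hm
  have hmpos : 0 < m := by omega
  let G : (Fin d → Fin N) → ({I : Finset (Fin d) // I.card = t} → Bool) :=
    fun y I => χ (I.1.image (fun i => emb i (y i)))
  let T := {I : Finset (Fin d) // I.card = t} → (Fin t → Fin m) → Bool
  let H : (Fin d → Fin m → Fin N) → T := fun V I κ =>
    χ (Finset.univ.image (fun j : Fin t => emb (I.1.orderEmbOfFin I.2 j) (V (I.1.orderEmbOfFin I.2 j) (κ j))))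
  have hGH : ∀ (V : Fin d → Fin m → Fin N) (k : Fin d → Fin m) I,
      G (fun i => V i (k i)) I = H V I (fun j => k (I.1.orderEmbOfFin I.2 j)) := by
    intro V k I
    simp only [G, H]
    congr 1
    conv_lhs => rw [← Finset.image_orderEmbOfFin_univ I.1 I.2]
    rw [Finset.image_image]
    rfl
  have hcardA : 0 < Fintype.card (Fin d → Fin m → Fin N) := by
    rw [Fintype.card_pos_iff]
    exact ⟨fun _ _ => ⟨0, hNpos⟩⟩
  obtain ⟨V0, hV0⟩ := exists_fiber H hcardA
  let σ : (Fin d → Fin m) → ({I : Finset (Fin d) // I.card = t} → Bool) := fun k => G (fun i => V0 i (k i))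
  have h1 : (Finset.univ.filter (fun V => H V = H V0)).card ≤ cnt G σ := by
    unfold cnt
    refine Finset.card_le_card ?_
    intro V hV
    simp only [Finset.mem_filter, Finset.mem_univ, true_and] at hV ⊢
    intro k
    funext I
    simp only [σ]
    rw [hGH, hGH, hV]
  obtain ⟨c, hc⟩ := exists_const_pattern hmpos G σ
  have hTcard : Fintype.card T = 2 ^ (m ^ t * d.choose t) := by
    simp only [T]
    rw [Fintype.card_fun, Fintype.card_fun, Fintype.card_fun, Fintype.card_finset_len, Fintype.card_fin,
      Fintype.card_fin, Fintype.card_bool, Fintype.card_fin, ← pow_mul]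
  have hAcard : Fintype.card (Fin d → Fin m → Fin N) = (N ^ m) ^ d := by
    simp
  have h2 : (N ^ m) ^ d ≤ 2 ^ (m ^ t * d.choose t) * (m ^ d * cnt G (fun _ : Fin d → Fin m => c)) := by
    rw [← hAcard, ← hTcard]
    refine hV0.trans (Nat.mul_le_mul_left _ (h1.trans ?_))
    simpa using hc
  -- bad arrays
  let bad : Finset (Fin m → Fin N) := Finset.univ.filter (fun v => (Finset.univ.image v).card ≤ s)
  let B : Finset (Fin d → Fin m → Fin N) :=
    Finset.univ.biUnion (fun i : Fin d => Fintype.piFinset (Function.update (fun _ => (Finset.univ : Finset (Fin m → Fin N))) i bad))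
  have hBcard : B.card ≤ d * (N ^ s * s ^ m * (N ^ m) ^ (d - 1)) := by
    calc B.card ≤ ∑ i : Fin d, (Fintype.piFinset (Function.update (fun _ => (Finset.univ : Finset (Fin m → Fin N))) i bad)).card :=
          Finset.card_biUnion_le
      _ ≤ ∑ _i : Fin d, (N ^ s * s ^ m * (N ^ m) ^ (d - 1)) := by
          refine Finset.sum_le_sum (fun i _ => ?_)
          rw [Fintype.card_piFinset]
          have h3 : ∀ j, (Function.update (fun _ => (Finset.univ : Finset (Fin m → Fin N))) i bad j).card =
              Function.update (fun _ : Fin d => N ^ m) i bad.card j := by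
            intro j
            by_cases hj : j = i
            · subst hj; simp
            · simp [hj]
          simp only [h3]
          rw [Finset.prod_update_of_mem (Finset.mem_univ i)]
          have h4 : (Finset.univ \ {i} : Finset (Fin d)).card = d - 1 := by
            rw [Finset.card_sdiff_of_subset (by simp)]; simp
          rw [Finset.prod_const, h4]
          exact Nat.mul_le_mul_right _ (card_few_values hmpos)
      _ = _ := by simp
  have hlt : B.card < cnt G (fun _ : Fin d → Fin m => c) := by
    by_contra hcon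
    push Not at hcon
    have h5 : (N ^ m) ^ d ≤ 2 ^ (m ^ t * d.choose t) * (m ^ d * (d * (N ^ s * s ^ m * (N ^ m) ^ (d - 1)))) :=
      h2.trans (Nat.mul_le_mul_left _ (Nat.mul_le_mul_left _ (hcon.trans hBcard)))
    obtain ⟨d', rfl⟩ : ∃ d', d = d' + 1 := ⟨d - 1, by omega⟩
    have h6 : (N ^ m) ^ (d' + 1) = (N ^ s * (N ^ m) ^ d') * N ^ s := by
      have : N ^ m = N ^ s * N ^ s := by rw [← pow_add, hm, two_mul]
      rw [pow_succ, this]; ring
    have h7 : 2 ^ (m ^ t * (d' + 1).choose t) * (m ^ (d' + 1) * ((d' + 1) * (N ^ s * s ^ m * (N ^ m) ^ (d' + 1 - 1)))) =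
        (N ^ s * (N ^ m) ^ d') * ((d' + 1) * s ^ m * 2 ^ (m ^ t * (d' + 1).choose t) * m ^ (d' + 1)) := by
      rw [Nat.add_sub_cancel]; ring
    rw [h6, h7] at h5
    have h8 := Nat.le_of_mul_le_mul_left h5 (by positivity)
    exact absurd h8 (not_le.mpr hN)
  -- pick a good array
  obtain ⟨V, hV, hVB⟩ : ∃ V ∈ Finset.univ.filter (fun V : Fin d → Fin m → Fin N => ∀ k : Fin d → Fin m, G (fun i => V i (k i)) = c),
      V ∉ B := by
    by_contra hcon
    push Not at hcon
    have : cnt G (fun _ : Fin d → Fin m => c) ≤ B.card := by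
      unfold cnt
      exact Finset.card_le_card (fun V hV => hcon V (by simpa using hV))
    omega
  simp only [Finset.mem_filter, Finset.mem_univ, true_and] at hV
  have hbig : ∀ i, s < (Finset.univ.image (V i)).card := by
    intro i
    by_contra hcon
    push Not at hcon
    apply hVB
    simp only [B, Finset.mem_biUnion, Finset.mem_univ, true_and, Fintype.mem_piFinset]
    refine ⟨i, fun j => ?_⟩
    by_cases hj : j = i
    · subst hj
      simp only [Function.update_self, bad, Finset.mem_filter, Finset.mem_univ, true_and]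
      exact hcon
    · simp [hj]
  have hQ : ∀ i, ∃ Q ⊆ (Finset.univ.image (fun a => emb i (V i a))), Q.card = s := by
    intro i
    refine Finset.exists_subset_card_eq ?_
    have h9 : (Finset.univ.image (fun a => emb i (V i a))) = (Finset.univ.image (V i)).image (emb i) := by
      rw [Finset.image_image]; rfl
    rw [h9, Finset.card_image_of_injective _ (fun y y' h => (hinj i i y y' h).2)]
    exact (hbig i).le
  choose Q hQs hQc using hQ
  refine ⟨Q, fun I => if h : I.card = t then c ⟨I, h⟩ else false, hQc, ?_, ?_⟩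
  · intro i j hij
    rw [Finset.disjoint_left]
    intro x hx hy
    obtain ⟨a, _, ha⟩ := Finset.mem_image.mp (hQs i hx)
    obtain ⟨b, _, hb⟩ := Finset.mem_image.mp (hQs j hy)
    exact hij (hinj i j _ _ (ha.trans hb.symm)).1
  · intro I hI x hx
    change χ (I.image x) = (if h : I.card = t then c ⟨I, h⟩ else false)
    rw [dif_pos hI]
    have hk : ∀ i, ∃ a : Fin m, i ∈ I → emb i (V i a) = x i := by
      intro i
      by_cases hi : i ∈ I
      · obtain ⟨a, _, ha⟩ := Finset.mem_image.mp (hQs i (hx i hi))
        exact ⟨a, fun _ => ha⟩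
      · exact ⟨⟨0, hmpos⟩, fun h => absurd h hi⟩
    choose k hk using hk
    have h10 := congrFun (hV k) ⟨I, hI⟩
    rw [← h10]
    simp only [G]
    congr 1
    exact Finset.image_congr (fun i hi => (hk i hi).symm)

end Pool.Agent.HDisc
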