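import Mathlib

/-!
The finite Ramsey theorem for 2-colourings of the `t`-subsets of a finite set.
-/

set_option autoImplicit false

namespace Pool.Agent.HDisc

open Finset

/-- Finite Ramsey theorem for `t`-uniform hypergraphs and two colours. -/
theorem ramsey {α : Type*} [DecidableEq α] (t : ℕ) : ∀ p q : ℕ, ∃ N : ℕ,
    ∀ (c : Finset α → Bool) (A : Finset α), N ≤ A.card →
      (∃ B ⊆ A, B.card = p ∧ ∀ S ∈ B.powersetCard t, c S = false) ∨
      (∃ B ⊆ A, B.card = q ∧ ∀ S ∈ B.powersetCard t, c S = true) := by
  induction t with
  | zero =>
    intro p q
    refine ⟨max p q, fun c A hA => ?_⟩
    rcases hc : c ∅ with _ | _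
    · left
      obtain ⟨B, hB, hBc⟩ := Finset.exists_subset_card_eq (le_trans (le_max_left p q) hA)
      refine ⟨B, hB, hBc, fun S hS => ?_⟩
      rw [Finset.powersetCard_zero, Finset.mem_singleton] at hS
      rw [hS, hc]
    · right
      obtain ⟨B, hB, hBc⟩ := Finset.exists_subset_card_eq (le_trans (le_max_right p q) hA)
      refine ⟨B, hB, hBc, fun S hS => ?_⟩
      rw [Finset.powersetCard_zero, Finset.mem_singleton] at hS
      rw [hS, hc]
  | succ t ih =>
    have key : ∀ s p q : ℕ, p + q = s → ∃ N : ℕ,
        ∀ (c : Finset α → Bool) (A : Finset α), N ≤ A.card →
          (∃ B ⊆ A, B.card = p ∧ ∀ S ∈ B.powersetCard (t + 1), c S = false) ∨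
          (∃ B ⊆ A, B.card = q ∧ ∀ S ∈ B.powersetCard (t + 1), c S = true) := by
      intro s
      induction s with
      | zero =>
        intro p q hpq
        refine ⟨0, fun c A _ => Or.inl ⟨∅, by simp, by simp; omega, ?_⟩⟩
        intro S hS
        rw [Finset.mem_powersetCard] at hS
        have := Finset.subset_empty.mp hS.1
        rw [this] at hS
        simp at hS
      | succ s ihs =>
        intro p q hpq
        rcases p with _ | p
        · refine ⟨0, fun c A _ => Or.inl ⟨∅, by simp, by simp, ?_⟩⟩
          intro S hS
          rw [Finset.mem_powersetCard] at hS
          have := Finset.subset_empty.mp hS.1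
          rw [this] at hS
          simp at hS
        rcases q with _ | q
        · refine ⟨0, fun c A _ => Or.inr ⟨∅, by simp, by simp, ?_⟩⟩
          intro S hS
          rw [Finset.mem_powersetCard] at hS
          have := Finset.subset_empty.mp hS.1
          rw [this] at hS
          simp at hS
        obtain ⟨N1, hN1⟩ := ihs p (q + 1) (by omega)
        obtain ⟨N2, hN2⟩ := ihs (p + 1) q (by omega)
        obtain ⟨M, hM⟩ := ih N1 N2
        refine ⟨M + 1, fun c A hA => ?_⟩
        have hne : A.Nonempty := by
          rw [← Finset.card_pos]; omega
        obtain ⟨a, ha⟩ := hne
        have hcard : M ≤ (A.erase a).card := by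
          rw [Finset.card_erase_of_mem ha]; omega
        rcases hM (fun S => c (insert a S)) (A.erase a) hcard with ⟨B', hB', hB'c, hB'S⟩ | ⟨B', hB', hB'c, hB'S⟩
        · rcases hN1 c B' hB'c.ge with ⟨B, hB, hBc, hBS⟩ | ⟨B, hB, hBc, hBS⟩
          · left
            have haB : a ∉ B := fun h => by
              have := hB' (hB h)
              simp at this
            refine ⟨insert a B, ?_, ?_, ?_⟩
            · intro x hx
              rcases Finset.mem_insert.mp hx with rfl | hx
              · exact ha
              · exact Finset.mem_of_mem_erase (hB' (hB hx))
            · rw [Finset.card_insert_of_notMem haB, hBc]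
            · intro S hS
              rw [Finset.mem_powersetCard] at hS
              by_cases haS : a ∈ S
              · have h1 : S = insert a (S.erase a) := (Finset.insert_erase haS).symm
                rw [h1]
                refine hB'S _ ?_
                rw [Finset.mem_powersetCard]
                refine ⟨?_, ?_⟩
                · intro x hx
                  have hx1 := Finset.mem_of_mem_erase hx
                  have hx2 := Finset.ne_of_mem_erase hx
                  rcases Finset.mem_insert.mp (hS.1 hx1) with h | h
                  · exact absurd h hx2
                  · exact hB h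
                · rw [Finset.card_erase_of_mem haS, hS.2]; rfl
              · refine hBS S ?_
                rw [Finset.mem_powersetCard]
                refine ⟨fun x hx => ?_, hS.2⟩
                rcases Finset.mem_insert.mp (hS.1 hx) with h | h
                · exact absurd (h ▸ hx) haS
                · exact h
          · right
            refine ⟨B, fun x hx => Finset.mem_of_mem_erase (hB' (hB hx)), hBc, hBS⟩
        · rcases hN2 c B' hB'c.ge with ⟨B, hB, hBc, hBS⟩ | ⟨B, hB, hBc, hBS⟩
          · left
            refine ⟨B, fun x hx => Finset.mem_of_mem_erase (hB' (hB hx)), hBc, hBS⟩
          · right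
            have haB : a ∉ B := fun h => by
              have := hB' (hB h)
              simp at this
            refine ⟨insert a B, ?_, ?_, ?_⟩
            · intro x hx
              rcases Finset.mem_insert.mp hx with rfl | hx
              · exact ha
              · exact Finset.mem_of_mem_erase (hB' (hB hx))
            · rw [Finset.card_insert_of_notMem haB, hBc]
            · intro S hS
              rw [Finset.mem_powersetCard] at hS
              by_cases haS : a ∈ S
              · have h1 : S = insert a (S.erase a) := (Finset.insert_erase haS).symm
                rw [h1]
                refine hB'S _ ?_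
                rw [Finset.mem_powersetCard]
                refine ⟨?_, ?_⟩
                · intro x hx
                  have hx1 := Finset.mem_of_mem_erase hx
                  have hx2 := Finset.ne_of_mem_erase hx
                  rcases Finset.mem_insert.mp (hS.1 hx1) with h | h
                  · exact absurd h hx2
                  · exact hB h
                · rw [Finset.card_erase_of_mem haS, hS.2]; rfl
              · refine hBS S ?_
                rw [Finset.mem_powersetCard]
                refine ⟨fun x hx => ?_, hS.2⟩
                rcases Finset.mem_insert.mp (hS.1 hx) with h | h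
                · exact absurd (h ▸ hx) haS
                · exact h
    exact fun p q => key (p + q) p q rfl

end Pool.Agent.HDisc
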