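import Mathlib
import Pool.Agent.HDisc.Defs
import Pool.Agent.HDisc.Ramsey
import Pool.Agent.HDisc.Multipartite

/-!
Lower bound for the hypergraph discrepancy Ramsey function.
-/

set_option autoImplicit false

namespace Pool.Agent.HDisc

open Finset

lemma card_supersets {β : Type*} [DecidableEq β] (X S : Finset β) (hS : S ⊆ X) (t : ℕ)
    (ht : S.card ≤ t) : ((X.powersetCard t).filter (fun e => S ⊆ e)).card =
      (X.card - S.card).choose (t - S.card) := by
  rw [← Finset.card_sdiff_of_subset hS, ← Finset.card_powersetCard]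
  refine Finset.card_bij' (fun e _ => e \ S) (fun f _ => f ∪ S) ?_ ?_ ?_ ?_
  · intro e he
    rw [Finset.mem_filter, Finset.mem_powersetCard] at he
    rw [Finset.mem_powersetCard]
    refine ⟨Finset.sdiff_subset_sdiff he.1.1 (Finset.Subset.refl S), ?_⟩
    rw [Finset.card_sdiff_of_subset he.2, he.1.2]
  · intro f hf
    rw [Finset.mem_powersetCard] at hf
    rw [Finset.mem_filter, Finset.mem_powersetCard]
    have hdis : Disjoint f S := Finset.disjoint_left.mpr (fun x hx hxS =>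
      (Finset.mem_sdiff.mp (hf.1 hx)).2 hxS)
    refine ⟨⟨Finset.union_subset (fun x hx => (Finset.mem_sdiff.mp (hf.1 hx)).1) hS, ?_⟩,
      Finset.subset_union_right⟩
    rw [Finset.card_union_of_disjoint hdis, hf.2]
    omega
  · intro e he
    rw [Finset.mem_filter, Finset.mem_powersetCard] at he
    exact Finset.sdiff_union_of_subset he.2
  · intro f hf
    rw [Finset.mem_powersetCard] at hf
    have hdis : Disjoint f S := Finset.disjoint_left.mpr (fun x hx hxS =>
      (Finset.mem_sdiff.mp (hf.1 hx)).2 hxS)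
    exact Finset.union_sdiff_cancel_right hdis

lemma card_pair_supersets {β : Type*} [DecidableEq β] (X : Finset β) {x y : β} (hx : x ∈ X)
    (hy : y ∈ X) (hxy : x ≠ y) {t : ℕ} (ht : 2 ≤ t) :
    ((X.powersetCard t).filter (fun e => x ∈ e ∧ y ∈ e)).card = (X.card - 2).choose (t - 2) := by
  have hc : ({x, y} : Finset β).card = 2 := Finset.card_pair hxy
  have h := card_supersets X {x, y} (by
    intro z hz
    rcases Finset.mem_insert.mp hz with rfl | hz
    · exact hx
    · rw [Finset.mem_singleton] at hz; rw [hz]; exact hy) t (by rw [hc]; exact ht)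
  rw [hc] at h
  rw [← h]
  congr 1
  ext e
  simp only [Finset.mem_filter, Finset.insert_subset_iff, Finset.singleton_subset_iff]

/-- The number of `t`-sets meeting some class twice. -/
lemma card_nontransversal {β : Type*} [DecidableEq β] {d : ℕ} (B : Finset (Fin d))
    (Q : Fin d → Finset β) (s : ℕ) (hQ : ∀ i, (Q i).card = s)
    (hdis : ∀ i j, i ≠ j → Disjoint (Q i) (Q j)) {t : ℕ} (ht : 2 ≤ t) :
    (((B.biUnion Q).powersetCard t).filter (fun e => ∃ i ∈ B, ∃ x ∈ Q i, ∃ y ∈ Q i, x ≠ y ∧ x ∈ e ∧ y ∈ e)).card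
      ≤ B.card * (s * (s - 1)) * (B.card * s - 2).choose (t - 2) := by
  set X := B.biUnion Q with hX
  have hXc : X.card = B.card * s := by
    rw [hX, Finset.card_biUnion (fun i _ j _ hij => hdis i j hij)]
    simp [hQ]
  have h1 : (X.powersetCard t).filter (fun e => ∃ i ∈ B, ∃ x ∈ Q i, ∃ y ∈ Q i, x ≠ y ∧ x ∈ e ∧ y ∈ e) ⊆
      B.biUnion (fun i => (Q i).offDiag.biUnion (fun p => (X.powersetCard t).filter (fun e => p.1 ∈ e ∧ p.2 ∈ e))) := by
    intro e he
    rw [Finset.mem_filter] at he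
    obtain ⟨he, i, hi, x, hx, y, hy, hxy, hxe, hye⟩ := he
    rw [Finset.mem_biUnion]
    refine ⟨i, hi, ?_⟩
    rw [Finset.mem_biUnion]
    refine ⟨(x, y), Finset.mem_offDiag.mpr ⟨hx, hy, hxy⟩, ?_⟩
    rw [Finset.mem_filter]
    exact ⟨he, hxe, hye⟩
  calc _ ≤ _ := Finset.card_le_card h1
    _ ≤ ∑ i ∈ B, ((Q i).offDiag.biUnion (fun p => (X.powersetCard t).filter (fun e => p.1 ∈ e ∧ p.2 ∈ e))).card :=
        Finset.card_biUnion_le
    _ ≤ ∑ i ∈ B, ∑ p ∈ (Q i).offDiag, ((X.powersetCard t).filter (fun e => p.1 ∈ e ∧ p.2 ∈ e)).card :=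
        Finset.sum_le_sum (fun i _ => Finset.card_biUnion_le)
    _ = ∑ i ∈ B, ∑ p ∈ (Q i).offDiag, (X.card - 2).choose (t - 2) := by
        refine Finset.sum_congr rfl (fun i hi => Finset.sum_congr rfl (fun p hp => ?_))
        rw [Finset.mem_offDiag] at hp
        exact card_pair_supersets X (Finset.mem_biUnion.mpr ⟨i, hi, hp.1⟩)
          (Finset.mem_biUnion.mpr ⟨i, hi, hp.2.1⟩) hp.2.2 ht
    _ = _ := by
        simp only [Finset.sum_const, Finset.offDiag_card, hQ, smul_eq_mul, hXc]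
        rw [Nat.mul_sub_one, ← mul_assoc]

lemma choose_two_step {n t : ℕ} (hn : 2 ≤ n) (ht : 2 ≤ t) :
    n * (n - 1) * (n - 2).choose (t - 2) = n.choose t * (t * (t - 1)) := by
  obtain ⟨n, rfl⟩ : ∃ n', n = n' + 2 := ⟨n - 2, by omega⟩
  obtain ⟨t, rfl⟩ : ∃ t', t = t' + 2 := ⟨t - 2, by omega⟩
  have h1 := Nat.add_one_mul_choose_eq (n + 1) (t + 1)
  have h2 := Nat.add_one_mul_choose_eq n t
  have e1 : n + 2 - 1 = n + 1 := by omega
  have e2 : t + 2 - 1 = t + 1 := by omega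
  have e3 : n + 2 - 2 = n := by omega
  have e4 : t + 2 - 2 = t := by omega
  rw [e1, e2, e3, e4]
  calc (n + 2) * (n + 1) * n.choose t = (n + 2) * ((n + 1) * n.choose t) := by ring
    _ = (n + 2) * ((n + 1).choose (t + 1) * (t + 1)) := by rw [h2]
    _ = ((n + 1 + 1) * (n + 1).choose (t + 1)) * (t + 1) := by ring
    _ = ((n + 1 + 1).choose (t + 1 + 1) * (t + 1 + 1)) * (t + 1) := by rw [h1]
    _ = _ := by ring

lemma exists_emb (d N n : ℕ) (h : d * N ≤ n) : ∃ emb : Fin d → Fin N → Fin n,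
    ∀ i i' y y', emb i y = emb i' y' → i = i' ∧ y = y' := by
  have hlt : ∀ (i : Fin d) (y : Fin N), (i : ℕ) * N + y < n := by
    intro i y
    have h1 : (i : ℕ) * N + y < ((i : ℕ) + 1) * N := by
      have := y.2
      nlinarith
    have h2 : ((i : ℕ) + 1) * N ≤ d * N := Nat.mul_le_mul_right _ i.2
    omega
  refine ⟨fun i y => ⟨(i : ℕ) * N + y, hlt i y⟩, ?_⟩
  intro i i' y y' hh
  have h3 : (i : ℕ) * N + y = (i' : ℕ) * N + y' := congrArg Fin.val hh
  have hNpos : 0 < N := lt_of_le_of_lt (Nat.zero_le _) y.2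
  have hy := y.2
  have hy' := y'.2
  have hi : (i : ℕ) = i' := by
    have e1 : ((i : ℕ) * N + y) / N = i := by
      rw [mul_comm, Nat.mul_add_div hNpos, Nat.div_eq_of_lt hy, add_zero]
    have e2 : ((i' : ℕ) * N + y') / N = i' := by
      rw [mul_comm, Nat.mul_add_div hNpos, Nat.div_eq_of_lt hy', add_zero]
    rw [← e1, ← e2, h3]
  refine ⟨Fin.ext hi, Fin.ext ?_⟩
  rw [hi] at h3
  omega

lemma size_bound (t d s : ℕ) (ht : 2 ≤ t) (hs : 0 < s) :
    d * s ^ (2 * s) * 2 ^ ((2 * s) ^ t * d.choose t) * (2 * s) ^ d <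
      (2 ^ ((2 ^ t * d.choose t + 3 * d + 3) * s ^ (t - 1))) ^ s := by
  have h1 : d < 2 ^ d := Nat.lt_two_pow_self
  have h2 : s ^ (2 * s) ≤ 2 ^ (s * (2 * s)) := by
    rw [pow_mul 2 s (2 * s)]
    exact Nat.pow_le_pow_left Nat.lt_two_pow_self.le _
  have h3 : (2 * s) ^ d ≤ 2 ^ (2 * s * d) := by
    rw [pow_mul]
    exact Nat.pow_le_pow_left Nat.lt_two_pow_self.le _
  have h4 : d * s ^ (2 * s) * 2 ^ ((2 * s) ^ t * d.choose t) * (2 * s) ^ d <
      2 ^ d * 2 ^ (s * (2 * s)) * 2 ^ ((2 * s) ^ t * d.choose t) * 2 ^ (2 * s * d) := by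
    have hpos : 0 < 2 ^ ((2 * s) ^ t * d.choose t) := by positivity
    have h5 : d * s ^ (2 * s) < 2 ^ d * 2 ^ (s * (2 * s)) := by
      calc d * s ^ (2 * s) ≤ d * 2 ^ (s * (2 * s)) := Nat.mul_le_mul_left _ h2
        _ < 2 ^ d * 2 ^ (s * (2 * s)) := Nat.mul_lt_mul_of_pos_right h1 (by positivity)
    calc _ ≤ d * s ^ (2 * s) * 2 ^ ((2 * s) ^ t * d.choose t) * 2 ^ (2 * s * d) :=
          Nat.mul_le_mul_left _ h3
      _ < _ := by
          apply Nat.mul_lt_mul_of_pos_right _ (by positivity)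
          exact Nat.mul_lt_mul_of_pos_right h5 hpos
  refine h4.trans_le ?_
  rw [← pow_add, ← pow_add, ← pow_add, ← pow_mul]
  refine Nat.pow_le_pow_right (by norm_num) ?_
  have e1 : (2 ^ t * d.choose t + 3 * d + 3) * s ^ (t - 1) * s = (2 ^ t * d.choose t + 3 * d + 3) * s ^ t := by
    rw [mul_assoc, ← pow_succ]
    congr 2
    omega
  rw [e1, mul_pow]
  have hst : s ≤ s ^ t := Nat.le_self_pow (by omega) s
  have hs2 : s * s ≤ s ^ t := by
    rw [← pow_two]
    exact Nat.pow_le_pow_right hs ht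
  have h1t : 1 ≤ s ^ t := Nat.one_le_pow _ _ hs
  nlinarith [Nat.mul_le_mul_left d h1t, Nat.mul_le_mul_left d hst]

/-- Ramsey's theorem for 2-colourings of the `t`-subsets of `Fin d`. -/
lemma ramsey_fin (t q : ℕ) : ∃ d0 : ℕ, ∀ d, d0 ≤ d → ∀ c : Finset (Fin d) → Bool,
    ∃ (B : Finset (Fin d)) (b : Bool), B.card = q ∧ ∀ I ⊆ B, I.card = t → c I = b := by
  classical
  obtain ⟨d0, hd0⟩ := ramsey (α := ℕ) t q q
  refine ⟨d0, fun d hd c => ?_⟩
  have key : ∀ (B' : Finset ℕ) (b : Bool), B' ⊆ Finset.range d → B'.card = q →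
      (∀ S ∈ B'.powersetCard t, c (Finset.univ.filter (fun i : Fin d => (i : ℕ) ∈ S)) = b) →
      ∃ (B : Finset (Fin d)) (b : Bool), B.card = q ∧ ∀ I ⊆ B, I.card = t → c I = b := by
    intro B' b hB' hB'c hB'S
    have hmapB : (Finset.univ.filter (fun i : Fin d => (i : ℕ) ∈ B')).map Fin.valEmbedding = B' := by
      ext x
      simp only [Finset.mem_map, Finset.mem_filter, Finset.mem_univ, true_and, Fin.valEmbedding_apply]
      constructor
      · rintro ⟨i, hi, rfl⟩; exact hi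
      · intro hx
        exact ⟨⟨x, Finset.mem_range.mp (hB' hx)⟩, hx, rfl⟩
    refine ⟨Finset.univ.filter (fun i : Fin d => (i : ℕ) ∈ B'), b, ?_, ?_⟩
    · rw [← hB'c, ← Finset.card_map Fin.valEmbedding, hmapB]
    · intro I hI hIc
      have h1 := hB'S (I.map Fin.valEmbedding) (by
        rw [Finset.mem_powersetCard]
        refine ⟨?_, by rw [Finset.card_map, hIc]⟩
        rw [← hmapB]
        exact Finset.map_subset_map.mpr hI)
      have h2 : (Finset.univ.filter (fun i : Fin d => (i : ℕ) ∈ I.map Fin.valEmbedding)) = I := by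
        ext i
        simp only [Finset.mem_filter, Finset.mem_univ, true_and, Finset.mem_map,
          Fin.valEmbedding_apply]
        constructor
        · rintro ⟨j, hj, hji⟩
          rwa [← Fin.ext hji]
        · intro hi
          exact ⟨i, hi, rfl⟩
      rwa [h2] at h1
  rcases hd0 (fun S => c (Finset.univ.filter (fun i : Fin d => (i : ℕ) ∈ S))) (Finset.range d)
    (by rw [Finset.card_range]; omega) with ⟨B', h1, h2, h3⟩ | ⟨B', h1, h2, h3⟩
  · exact key B' false h1 h2 h3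
  · exact key B' true h1 h2 h3

/-- If all transversal `t`-sets have colour `b`, then all sets of the other colour are not
transversal. -/
lemma other_colour_subset {n d t : ℕ} (ht : 2 ≤ t) (hd : 0 < d) (χ : Finset (Fin n) → Bool)
    (Q : Fin d → Finset (Fin n)) (c : Finset (Fin d) → Bool)
    (hQ : ∀ I : Finset (Fin d), I.card = t → ∀ x : Fin d → Fin n, (∀ i ∈ I, x i ∈ Q i) →
        χ (I.image x) = c I) (B : Finset (Fin d)) (b : Bool)
    (hB : ∀ I ⊆ B, I.card = t → c I = b) :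
    ((B.biUnion Q).powersetCard t).filter (fun e => χ e = !b) ⊆
      ((B.biUnion Q).powersetCard t).filter
        (fun e => ∃ i ∈ B, ∃ x ∈ Q i, ∃ y ∈ Q i, x ≠ y ∧ x ∈ e ∧ y ∈ e) := by
  classical
  intro e he
  rw [Finset.mem_filter] at he ⊢
  refine ⟨he.1, ?_⟩
  by_contra hno
  push Not at hno
  have heX := Finset.mem_powersetCard.mp he.1
  have hpart : ∀ x, ∃ i : Fin d, x ∈ e → i ∈ B ∧ x ∈ Q i := by
    intro x
    by_cases hx : x ∈ e
    · obtain ⟨i, hi, hxi⟩ := Finset.mem_biUnion.mp (heX.1 hx)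
      exact ⟨i, fun _ => ⟨hi, hxi⟩⟩
    · exact ⟨⟨0, hd⟩, fun h => absurd h hx⟩
  choose part hpart using hpart
  have hinj : Set.InjOn part (e : Set (Fin n)) := by
    intro x hx y hy hxy
    by_contra hne
    have h1 := hpart x hx
    have h2 := hpart y hy
    rw [← hxy] at h2
    exact hno (part x) h1.1 x h1.2 y h2.2 hne hx hy
  have hIc : (e.image part).card = t := by
    rw [Finset.card_image_of_injOn hinj, heX.2]
  obtain ⟨x0, _⟩ : e.Nonempty := by rw [← Finset.card_pos]; omega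
  have hinv : ∀ i : Fin d, ∃ x, i ∈ e.image part → x ∈ e ∧ part x = i := by
    intro i
    by_cases hi : i ∈ e.image part
    · obtain ⟨x, hx, hxi⟩ := Finset.mem_image.mp hi
      exact ⟨x, fun _ => ⟨hx, hxi⟩⟩
    · exact ⟨x0, fun h => absurd h hi⟩
  choose x hx using hinv
  have h3 := hQ (e.image part) hIc x (fun i hi => by
    have h4 := hx i hi
    have h5 := (hpart (x i) h4.1).2
    rwa [h4.2] at h5)
  have h6 : (e.image part).image x = e := by
    ext z
    simp only [Finset.mem_image]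
    constructor
    · rintro ⟨i, ⟨w, hw, rfl⟩, rfl⟩
      exact (hx (part w) (Finset.mem_image_of_mem _ hw)).1
    · intro hz
      refine ⟨part z, ⟨z, hz, rfl⟩, ?_⟩
      have h7 := hx (part z) (Finset.mem_image_of_mem _ hz)
      exact hinj h7.1 hz h7.2
  rw [h6, hB _ (by
    intro i hi
    obtain ⟨w, hw, rfl⟩ := Finset.mem_image.mp hi
    exact (hpart w hw).1) hIc] at h3
  have h4 := he.2
  rw [h3] at h4
  cases b <;> simp at h4

lemma real_bound {q s t : ℕ} {α : ℝ} (hq2 : 2 ≤ q) (hs : 0 < s) (ht : 2 ≤ t)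
    (hqα : ((t * (t - 1) : ℕ) : ℝ) ≤ α * q) {K : ℕ}
    (hK : K ≤ q * (s * (s - 1)) * (q * s - 2).choose (t - 2)) :
    (K : ℝ) ≤ α * ((q * s).choose t : ℕ) := by
  have hqs : 2 ≤ q * s := by nlinarith
  have hstep := choose_two_step hqs ht
  have hnat : q * K ≤ (q * s).choose t * (t * (t - 1)) := by
    rw [← hstep]
    calc q * K ≤ q * (q * (s * (s - 1)) * (q * s - 2).choose (t - 2)) := Nat.mul_le_mul_left _ hK
      _ = (q * s) * (q * (s - 1)) * (q * s - 2).choose (t - 2) := by ring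
      _ ≤ (q * s) * (q * s - 1) * (q * s - 2).choose (t - 2) := by
          refine Nat.mul_le_mul_right _ (Nat.mul_le_mul_left _ ?_)
          rw [Nat.mul_sub_one]
          omega
  have hR : (q : ℝ) * K ≤ ((q * s).choose t : ℕ) * ((t * (t - 1) : ℕ) : ℝ) := by
    have h1 : ((q * K : ℕ) : ℝ) ≤ (((q * s).choose t * (t * (t - 1)) : ℕ) : ℝ) := Nat.cast_le.mpr hnat
    rw [Nat.cast_mul, Nat.cast_mul] at h1
    exact h1
  have hqR : (2 : ℝ) ≤ q := by exact_mod_cast hq2
  have hW0 : (0 : ℝ) ≤ ((q * s).choose t : ℕ) := Nat.cast_nonneg _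
  have h8 : (q : ℝ) * K ≤ (q : ℝ) * (α * ((q * s).choose t : ℕ)) := by
    calc (q : ℝ) * K ≤ ((q * s).choose t : ℕ) * ((t * (t - 1) : ℕ) : ℝ) := hR
      _ ≤ ((q * s).choose t : ℕ) * (α * q) := mul_le_mul_of_nonneg_left hqα hW0
      _ = (q : ℝ) * (α * ((q * s).choose t : ℕ)) := by ring
  exact le_of_mul_le_mul_left h8 (by linarith)

/-- If `n ≥ d * 2 ^ (A * s ^ (t - 1))`, then the discrepancy Ramsey function is at least `s`. -/
theorem lower (t : ℕ) (ht : 2 ≤ t) (α : ℝ) (hα : 0 < α) :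
    ∃ A d : ℕ, 0 < A ∧ 0 < d ∧ ∀ s n : ℕ, 0 < s → d * 2 ^ (A * s ^ (t - 1)) ≤ n → s ≤ F t n α := by
  classical
  obtain ⟨q, hq⟩ := exists_nat_ge (((t * (t - 1) : ℕ) : ℝ) / α + 2)
  have hpos : (0 : ℝ) ≤ ((t * (t - 1) : ℕ) : ℝ) / α := by positivity
  have hq2 : 2 ≤ q := by
    have : (2 : ℝ) ≤ q := by linarith
    exact_mod_cast this
  have hqα : ((t * (t - 1) : ℕ) : ℝ) ≤ α * q := by
    have h1 : ((t * (t - 1) : ℕ) : ℝ) / α ≤ q := by linarith
    rw [div_le_iff₀ hα] at h1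
    linarith
  obtain ⟨d0, hd0⟩ := ramsey_fin t q
  obtain ⟨d, hd⟩ : ∃ d, d = d0 + 1 := ⟨_, rfl⟩
  refine ⟨2 ^ t * d.choose t + 3 * d + 3, d, by omega, by omega, ?_⟩
  intro s n hs hn
  obtain ⟨emb, hemb⟩ := exists_emb d _ n hn
  refine le_csInf ⟨n + 1, fun _ => false, fun X hX => ?_⟩ ?_
  · have := Finset.card_le_univ X
    rw [Fintype.card_fin] at this
    omega
  rintro f ⟨χ, hχ⟩
  obtain ⟨Q, c, hQc, hQd, hQ⟩ := exists_multipartite t d s _ hs (by omega) χ emb hemb
    (size_bound t d s ht hs)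
  obtain ⟨B, b, hBc, hB⟩ := hd0 d (by omega) c
  have hXc : (B.biUnion Q).card = q * s := by
    rw [Finset.card_biUnion (fun i _ j _ hij => hQd i j hij)]
    simp [hQc, hBc]
  by_contra hcon
  push Not at hcon
  have hfX : f ≤ (B.biUnion Q).card := by
    rw [hXc]
    nlinarith
  have hbal := hχ (B.biUnion Q) hfX (!b)
  have hsub := other_colour_subset ht (by omega) χ Q c hQ B b hB
  have hcount : (((B.biUnion Q).powersetCard t).filter (fun e => χ e = !b)).card ≤
      B.card * (s * (s - 1)) * (B.card * s - 2).choose (t - 2) := by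
    refine (Finset.card_le_card hsub).trans ?_
    refine le_trans (le_of_eq ?_) (card_nontransversal B Q s hQc hQd ht)
    congr
  rw [hBc] at hcount
  have hfin := real_bound hq2 hs ht hqα hcount
  rw [hXc] at hbal
  linarith

end Pool.Agent.HDisc
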