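import Mathlib
import Pool.Agent.HDisc.Defs
import Pool.Agent.HDisc.Lower

/-!
Upper bound for the hypergraph discrepancy Ramsey function (random colourings).
-/

set_option autoImplicit false

namespace Pool.Agent.HDisc

open Finset

lemma exp_bound (α : ℝ) :
    (1 + Real.exp (-(1 - 2 * α))) * Real.exp (α * (1 - 2 * α)) ≤
      2 * Real.exp (-(3 / 8) * (1 - 2 * α) ^ 2) := by
  set δ := 1 - 2 * α with hδ
  have h1 : 1 + Real.exp (-δ) = 2 * (Real.exp (-(δ / 2)) * Real.cosh (δ / 2)) := by
    rw [Real.cosh_eq]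
    have e1 : Real.exp (-(δ / 2)) * Real.exp (δ / 2) = 1 := by
      rw [← Real.exp_add]; simp
    have e2 : Real.exp (-(δ / 2)) * Real.exp (-(δ / 2)) = Real.exp (-δ) := by
      rw [← Real.exp_add]; congr 1; ring
    calc 1 + Real.exp (-δ) = Real.exp (-(δ / 2)) * Real.exp (δ / 2) +
          Real.exp (-(δ / 2)) * Real.exp (-(δ / 2)) := by rw [e1, e2]
      _ = _ := by ring
  have h2 : Real.cosh (δ / 2) ≤ Real.exp ((δ / 2) ^ 2 / 2) := Real.cosh_le_exp_half_sq _
  rw [h1]
  calc 2 * (Real.exp (-(δ / 2)) * Real.cosh (δ / 2)) * Real.exp (α * δ)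
      ≤ 2 * (Real.exp (-(δ / 2)) * Real.exp ((δ / 2) ^ 2 / 2)) * Real.exp (α * δ) := by
        gcongr
    _ = 2 * Real.exp (-(δ / 2) + (δ / 2) ^ 2 / 2 + α * δ) := by
        rw [Real.exp_add, Real.exp_add]; ring
    _ = 2 * Real.exp (-(3 / 8) * δ ^ 2) := by
        congr 2
        rw [hδ]; ring

lemma sum_weight {E : Type*} [Fintype E] [DecidableEq E] (P : Finset E) (b : Bool) (l : ℝ) :
    ∑ χ : E → Bool, l ^ (P.filter (fun e => χ e = b)).card =
      (1 + l) ^ P.card * 2 ^ (Pᶜ).card := by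
  classical
  let g : E → Bool → ℝ := fun e c => if e ∈ P then (if c = b then l else 1) else 1
  have h1 : ∀ χ : E → Bool, l ^ (P.filter (fun e => χ e = b)).card = ∏ e : E, g e (χ e) := by
    intro χ
    simp only [g]
    rw [← Finset.prod_const, Finset.prod_filter, Finset.prod_ite_mem, Finset.univ_inter]
  have h2 : ∀ e, ∑ c : Bool, g e c = if e ∈ P then (1 + l) else 2 := by
    intro e
    simp only [g]
    by_cases he : e ∈ P
    · simp only [he, if_true]
      cases b
      · simp [add_comm]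
      · simp [add_comm]
    · simp only [he, if_false]
      simp
  simp only [h1]
  have h3 := Finset.sum_prod_piFinset (Finset.univ : Finset Bool) g
  rw [Fintype.piFinset_univ] at h3
  rw [h3]
  simp only [h2]
  rw [Finset.prod_ite, Finset.prod_const, Finset.prod_const]
  congr 2
  · simp
  · congr 1
    ext e
    simp

/-- Few colourings have at most `α |P|` elements of `P` in colour `b`. -/
lemma card_bad {E : Type*} [Fintype E] [DecidableEq E] (P : Finset E) (b : Bool) (α : ℝ)
    (hα : α < 1 / 2) :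
    ((Finset.univ.filter (fun χ : E → Bool =>
      (((P.filter (fun e => χ e = b)).card : ℕ) : ℝ) ≤ α * (P.card : ℝ))).card : ℝ) ≤
      (Real.exp (-(3 / 8) * (1 - 2 * α) ^ 2)) ^ P.card * 2 ^ (Fintype.card E) := by
  classical
  set δ := 1 - 2 * α with hδ
  have hδ0 : 0 < δ := by rw [hδ]; linarith
  have h1 : ∀ χ ∈ Finset.univ.filter (fun χ : E → Bool =>
      (((P.filter (fun e => χ e = b)).card : ℕ) : ℝ) ≤ α * (P.card : ℝ)),
      (1 : ℝ) ≤ Real.exp (α * δ) ^ P.card * Real.exp (-δ) ^ (P.filter (fun e => χ e = b)).card := by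
    intro χ hχ
    rw [Finset.mem_filter] at hχ
    rw [← Real.exp_nat_mul, ← Real.exp_nat_mul, ← Real.exp_add]
    apply Real.one_le_exp
    have := hχ.2
    nlinarith
  calc ((Finset.univ.filter (fun χ : E → Bool =>
      (((P.filter (fun e => χ e = b)).card : ℕ) : ℝ) ≤ α * (P.card : ℝ))).card : ℝ)
      = ∑ χ ∈ Finset.univ.filter (fun χ : E → Bool =>
      (((P.filter (fun e => χ e = b)).card : ℕ) : ℝ) ≤ α * (P.card : ℝ)), (1 : ℝ) := by simp
    _ ≤ ∑ χ ∈ Finset.univ.filter (fun χ : E → Bool =>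
      (((P.filter (fun e => χ e = b)).card : ℕ) : ℝ) ≤ α * (P.card : ℝ)),
        Real.exp (α * δ) ^ P.card * Real.exp (-δ) ^ (P.filter (fun e => χ e = b)).card :=
        Finset.sum_le_sum h1
    _ ≤ ∑ χ : E → Bool,
        Real.exp (α * δ) ^ P.card * Real.exp (-δ) ^ (P.filter (fun e => χ e = b)).card := by
        apply Finset.sum_le_sum_of_subset_of_nonneg (Finset.filter_subset _ _)
        intro χ _ _
        positivity
    _ = Real.exp (α * δ) ^ P.card * ((1 + Real.exp (-δ)) ^ P.card * 2 ^ (Pᶜ).card) := by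
        rw [← Finset.mul_sum, sum_weight]
    _ = ((1 + Real.exp (-δ)) * Real.exp (α * δ)) ^ P.card * 2 ^ (Pᶜ).card := by
        rw [mul_pow]; ring
    _ ≤ (2 * Real.exp (-(3 / 8) * δ ^ 2)) ^ P.card * 2 ^ (Pᶜ).card := by
        have := exp_bound α
        rw [← hδ] at this
        gcongr
    _ = _ := by
        have h5 : (2 : ℝ) ^ (Fintype.card E) = 2 ^ P.card * 2 ^ (Pᶜ).card := by
          rw [← pow_add, Finset.card_add_card_compl]
        rw [h5, mul_pow]; ring

/-- Averaging: balance for all sets of size exactly `f` implies balance above `f`. -/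
lemma balanced_of_eq {t n f : ℕ} {α : ℝ} (hf : t ≤ f) (χ : Finset (Fin n) → Bool)
    (h : ∀ X : Finset (Fin n), X.card = f → ∀ b : Bool,
      α * (X.card.choose t : ℝ) < (((X.powersetCard t).filter (fun e => χ e = b)).card : ℝ)) :
    IsBalancedAbove t α χ f := by
  classical
  intro X hX b
  have hcount : ∑ Y ∈ X.powersetCard f, ((Y.powersetCard t).filter (fun e => χ e = b)).card =
      ((X.powersetCard t).filter (fun e => χ e = b)).card * (X.card - t).choose (f - t) := by
    have h1 : ∀ Y ∈ X.powersetCard f, ((Y.powersetCard t).filter (fun e => χ e = b)).card =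
        ∑ e ∈ (X.powersetCard t).filter (fun e => χ e = b), if e ⊆ Y then 1 else 0 := by
      intro Y hY
      rw [Finset.mem_powersetCard] at hY
      rw [← Finset.sum_filter, Finset.card_eq_sum_ones]
      refine Finset.sum_congr ?_ (fun _ _ => rfl)
      ext e
      simp only [Finset.mem_filter, Finset.mem_powersetCard]
      constructor
      · rintro ⟨⟨h1, h2⟩, h3⟩
        exact ⟨⟨⟨h1.trans hY.1, h2⟩, h3⟩, h1⟩
      · rintro ⟨⟨⟨h1, h2⟩, h3⟩, h4⟩
        exact ⟨⟨h4, h2⟩, h3⟩
    rw [Finset.sum_congr rfl h1, Finset.sum_comm, Finset.card_eq_sum_ones, Finset.sum_mul]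
    refine Finset.sum_congr rfl (fun e he => ?_)
    rw [Finset.mem_filter, Finset.mem_powersetCard] at he
    rw [one_mul, ← Finset.sum_filter, ← Finset.card_eq_sum_ones, card_supersets X e he.1.1 f (by
      rw [he.1.2]; exact hf), he.1.2]
  have hne : (X.powersetCard f).Nonempty := Finset.powersetCard_nonempty.mpr hX
  have hlt : ∑ Y ∈ X.powersetCard f, α * (f.choose t : ℝ) <
      ∑ Y ∈ X.powersetCard f, (((Y.powersetCard t).filter (fun e => χ e = b)).card : ℝ) := by
    refine Finset.sum_lt_sum_of_nonempty hne (fun Y hY => ?_)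
    rw [Finset.mem_powersetCard] at hY
    have := h Y hY.2 b
    rwa [hY.2] at this
  rw [Finset.sum_const, Finset.card_powersetCard, nsmul_eq_mul, ← Nat.cast_sum, hcount] at hlt
  have hch : (X.card.choose f) * (f.choose t) = X.card.choose t * (X.card - t).choose (f - t) :=
    Nat.choose_mul hf
  have hchR : ((X.card.choose f : ℕ) : ℝ) * ((f.choose t : ℕ) : ℝ) =
      ((X.card.choose t : ℕ) : ℝ) * (((X.card - t).choose (f - t) : ℕ) : ℝ) := by
    exact_mod_cast hch
  have hpos : (0 : ℝ) < (((X.card - t).choose (f - t) : ℕ) : ℝ) := by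
    have : 0 < (X.card - t).choose (f - t) := Nat.choose_pos (by omega)
    exact_mod_cast this
  rw [Nat.cast_mul] at hlt
  have h5 : α * (X.card.choose t : ℝ) * (((X.card - t).choose (f - t) : ℕ) : ℝ) <
      (((X.powersetCard t).filter (fun e => χ e = b)).card : ℝ) *
        (((X.card - t).choose (f - t) : ℕ) : ℝ) := by
    calc α * (X.card.choose t : ℝ) * (((X.card - t).choose (f - t) : ℕ) : ℝ)
        = α * (((X.card.choose t : ℕ) : ℝ) * (((X.card - t).choose (f - t) : ℕ) : ℝ)) := by ring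
      _ = α * (((X.card.choose f : ℕ) : ℝ) * ((f.choose t : ℕ) : ℝ)) := by rw [hchR]
      _ = ((X.card.choose f : ℕ) : ℝ) * (α * ((f.choose t : ℕ) : ℝ)) := by ring
      _ < _ := hlt
  exact lt_of_mul_lt_mul_right h5 hpos.le

/-- The union bound. -/
lemma exists_balanced {t n f : ℕ} {α : ℝ} (hα : α < 1 / 2) (hf : t ≤ f)
    (hn : 2 * (n.choose f : ℝ) * (Real.exp (-(3 / 8) * (1 - 2 * α) ^ 2)) ^ (f.choose t) < 1) :
    ∃ χ : Finset (Fin n) → Bool, IsBalancedAbove t α χ f := by
  classical
  by_contra hcon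
  push Not at hcon
  set ρ := Real.exp (-(3 / 8) * (1 - 2 * α) ^ 2) with hρ
  let badS : Finset (Fin n) × Bool → Finset (Finset (Fin n) → Bool) := fun p =>
    Finset.univ.filter (fun χ : Finset (Fin n) → Bool =>
      ((((p.1.powersetCard t).filter (fun e => χ e = p.2)).card : ℕ) : ℝ) ≤
        α * ((p.1.powersetCard t).card : ℝ))
  have hcov : (Finset.univ : Finset (Finset (Fin n) → Bool)) ⊆
      ((Finset.univ.powersetCard f) ×ˢ (Finset.univ : Finset Bool)).biUnion badS := by
    intro χ _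
    have h1 := hcon χ
    have h2 : ¬ ∀ X : Finset (Fin n), X.card = f → ∀ b : Bool,
      α * (X.card.choose t : ℝ) < (((X.powersetCard t).filter (fun e => χ e = b)).card : ℝ) :=
      fun h => h1 (balanced_of_eq hf χ h)
    push Not at h2
    obtain ⟨X, hX, b, hb⟩ := h2
    rw [Finset.mem_biUnion]
    refine ⟨(X, b), ?_, ?_⟩
    · rw [Finset.mem_product, Finset.mem_powersetCard]
      exact ⟨⟨Finset.subset_univ _, hX⟩, Finset.mem_univ _⟩
    · simp only [badS, Finset.mem_filter, Finset.mem_univ, true_and, Finset.card_powersetCard]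
      exact hb
  have hcard : ((2 : ℝ) ^ (Fintype.card (Finset (Fin n)))) ≤
      ∑ p ∈ (Finset.univ.powersetCard f) ×ˢ (Finset.univ : Finset Bool), ((badS p).card : ℝ) := by
    have h3 := (Finset.card_le_card hcov).trans Finset.card_biUnion_le
    rw [Finset.card_univ, Fintype.card_fun, Fintype.card_bool] at h3
    have h4 := (Nat.cast_le (α := ℝ)).mpr h3
    rw [Nat.cast_sum, Nat.cast_pow, Nat.cast_ofNat] at h4
    exact h4
  have hsum : ∑ p ∈ (Finset.univ.powersetCard f) ×ˢ (Finset.univ : Finset Bool), ((badS p).card : ℝ) ≤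
      ∑ p ∈ (Finset.univ.powersetCard f : Finset (Finset (Fin n))) ×ˢ (Finset.univ : Finset Bool),
        ρ ^ (f.choose t) * 2 ^ (Fintype.card (Finset (Fin n))) := by
    refine Finset.sum_le_sum (fun p hp => ?_)
    rw [Finset.mem_product, Finset.mem_powersetCard] at hp
    have h5 := card_bad (p.1.powersetCard t) p.2 α hα
    rw [← hρ] at h5
    rw [Finset.card_powersetCard, hp.1.2] at h5
    simp only [badS]
    rw [Finset.card_powersetCard, hp.1.2]
    exact h5
  rw [Finset.sum_const, Finset.card_product, Finset.card_powersetCard, Finset.card_univ,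
    Finset.card_univ, Fintype.card_fin, Fintype.card_bool, nsmul_eq_mul, Nat.cast_mul] at hsum
  have h6 := hcard.trans hsum
  have h7 : (0 : ℝ) < 2 ^ (Fintype.card (Finset (Fin n))) := by positivity
  have h8 : ((n.choose f : ℕ) : ℝ) * ((2 : ℕ) : ℝ) *
      (ρ ^ (f.choose t) * 2 ^ (Fintype.card (Finset (Fin n)))) =
      (2 * (n.choose f : ℝ) * ρ ^ (f.choose t)) * 2 ^ (Fintype.card (Finset (Fin n))) := by
    push_cast; ring
  rw [h8] at h6
  nlinarith

lemma choose_lower {f t : ℕ} (hf : 2 * t ≤ f) :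
    (f : ℝ) ^ t / (2 ^ t * (t.factorial : ℝ)) ≤ (f.choose t : ℝ) := by
  have h1 : (((f + 1 - t : ℕ) : ℝ) ^ t) / (t.factorial : ℝ) ≤ (f.choose t : ℝ) :=
    Nat.pow_le_choose t f
  refine le_trans ?_ h1
  have h2 : (f : ℝ) / 2 ≤ ((f + 1 - t : ℕ) : ℝ) := by
    rw [div_le_iff₀ (by norm_num)]
    have : f ≤ (f + 1 - t) * 2 := by omega
    exact_mod_cast this
  have h3 : (f : ℝ) ^ t / 2 ^ t ≤ ((f + 1 - t : ℕ) : ℝ) ^ t := by
    rw [← div_pow]
    exact pow_le_pow_left₀ (by positivity) h2 t
  rw [← div_div]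
  gcongr

/-- There is `κ > 0` such that for all large `f` and all `n` with `log n ≤ κ f ^ (t - 1)` some
colouring of the `t`-subsets of an `n`-set is balanced above `f`. -/
theorem upper (t : ℕ) (ht : 1 ≤ t) (α : ℝ) (hα : α < 1 / 2) :
    ∃ (κ : ℝ) (f0 : ℕ), 0 < κ ∧ ∀ f n : ℕ, f0 ≤ f → Real.log n ≤ κ * (f : ℝ) ^ (t - 1) →
      ∃ χ : Finset (Fin n) → Bool, IsBalancedAbove t α χ f := by
  set c := (3 / 8) * (1 - 2 * α) ^ 2 with hc
  have hc0 : 0 < c := by
    have : 0 < 1 - 2 * α := by linarith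
    positivity
  set D := (2 : ℝ) ^ t * (t.factorial : ℝ) with hD
  have hD0 : 0 < D := by positivity
  obtain ⟨m, hm⟩ := exists_nat_gt (2 * D * Real.log 2 / c)
  refine ⟨c / (2 * D), max (2 * t) (max m 1), by positivity, ?_⟩
  intro f n hf hn
  have hf1 : 2 * t ≤ f := le_trans (le_max_left _ _) hf
  have hf2 : m ≤ f := le_trans (le_trans (le_max_left _ _) (le_max_right _ _)) hf
  have hf3 : 1 ≤ f := le_trans (le_trans (le_max_right _ _) (le_max_right _ _)) hf
  apply exists_balanced hα (by omega)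
  rcases Nat.lt_or_ge n f with hnf | hnf
  · rw [Nat.choose_eq_zero_of_lt hnf]; norm_num
  have hn1 : 1 ≤ n := le_trans hf3 hnf
  have hnpos : (0 : ℝ) < n := by exact_mod_cast hn1
  have h1 : (n.choose f : ℝ) ≤ (n : ℝ) ^ f := by
    exact_mod_cast Nat.choose_le_pow n f
  have hneg : -(3 / 8) * (1 - 2 * α) ^ 2 = -c := by rw [hc]; ring
  rw [hneg, ← Real.exp_nat_mul]
  have h2 : (n : ℝ) ^ f = Real.exp (f * Real.log n) := by
    rw [Real.exp_nat_mul, Real.exp_log hnpos]
  have h3 : (2 : ℝ) = Real.exp (Real.log 2) := (Real.exp_log (by norm_num)).symm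
  calc 2 * (n.choose f : ℝ) * Real.exp ((f.choose t : ℕ) * -c)
      ≤ 2 * (n : ℝ) ^ f * Real.exp ((f.choose t : ℕ) * -c) := by gcongr
    _ = Real.exp (Real.log 2 + f * Real.log n + (f.choose t : ℕ) * -c) := by
        rw [Real.exp_add, Real.exp_add, ← h2, ← h3]
    _ < 1 := by
        rw [Real.exp_lt_one_iff]
        have h4 := choose_lower hf1
        rw [← hD] at h4
        have h5 : (f : ℝ) * Real.log n ≤ c / (2 * D) * (f : ℝ) ^ t := by
          have h6 : (f : ℝ) * Real.log n ≤ f * (c / (2 * D) * (f : ℝ) ^ (t - 1)) :=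
            mul_le_mul_of_nonneg_left hn (by positivity)
          refine h6.trans (le_of_eq ?_)
          have : (f : ℝ) ^ t = f ^ (t - 1) * f := by
            rw [← pow_succ]; congr 1; omega
          rw [this]; ring
        have h7 : c * ((f : ℝ) ^ t / D) ≤ c * (f.choose t : ℝ) := mul_le_mul_of_nonneg_left h4 hc0.le
        have h8 : (f : ℝ) ≤ (f : ℝ) ^ t := by
          have h9 : f ≤ f ^ t := Nat.le_self_pow (by omega) f
          exact_mod_cast h9
        have h10 : Real.log 2 < c / (2 * D) * (f : ℝ) ^ t := by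
          have h11 : 2 * D * Real.log 2 / c < f := lt_of_lt_of_le hm (by exact_mod_cast hf2)
          rw [div_lt_iff₀ hc0] at h11
          have h12 : Real.log 2 < c / (2 * D) * f := by
            rw [div_mul_eq_mul_div, lt_div_iff₀ (by positivity)]
            linarith
          refine lt_of_lt_of_le h12 ?_
          exact mul_le_mul_of_nonneg_left h8 (by positivity)
        have h13 : c * ((f : ℝ) ^ t / D) = c / (2 * D) * (f : ℝ) ^ t + c / (2 * D) * (f : ℝ) ^ t := by
          field_simp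
          ring
        linarith

end Pool.Agent.HDisc
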