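import Mathlib
import Pool.Agent.HDisc.Defs
import Pool.Agent.HDisc.Upper

/-!
The stepping-up construction (from triples to `t`-sets, `t ≥ 4`).
-/

set_option autoImplicit false

namespace Pool.Agent.HDisc

open Finset

/-- The height of the branching point of `x` and `y` in the binary tree. -/
noncomputable def br (x y : ℕ) : ℕ := sInf {i : ℕ | x / 2 ^ i = y / 2 ^ i}

lemma br_le_iff (x y i : ℕ) : br x y ≤ i ↔ x / 2 ^ i = y / 2 ^ i := by
  have hne : {i : ℕ | x / 2 ^ i = y / 2 ^ i}.Nonempty := by
    refine ⟨x + y, ?_⟩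
    have hx : x < 2 ^ (x + y) := lt_of_le_of_lt (Nat.le_add_right x y) Nat.lt_two_pow_self
    have hy : y < 2 ^ (x + y) := lt_of_le_of_lt (Nat.le_add_left y x) Nat.lt_two_pow_self
    change x / 2 ^ (x + y) = y / 2 ^ (x + y)
    rw [Nat.div_eq_of_lt hx, Nat.div_eq_of_lt hy]
  constructor
  · intro h
    have h1 : x / 2 ^ br x y = y / 2 ^ br x y := Nat.sInf_mem hne
    obtain ⟨j, rfl⟩ := Nat.exists_eq_add_of_le h
    rw [pow_add, ← Nat.div_div_eq_div_mul, ← Nat.div_div_eq_div_mul, h1]
  · intro h
    exact Nat.sInf_le h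

lemma br_max {x y z : ℕ} (hxy : x ≤ y) (hyz : y ≤ z) : br x z = max (br x y) (br y z) := by
  apply le_antisymm
  · rw [br_le_iff]
    have h1 := (br_le_iff x y _).mp (le_max_left (br x y) (br y z))
    have h2 := (br_le_iff y z _).mp (le_max_right (br x y) (br y z))
    exact h1.trans h2
  · have h := (br_le_iff x z _).mp le_rfl
    have h1 : x / 2 ^ br x z ≤ y / 2 ^ br x z := Nat.div_le_div_right hxy
    have h2 : y / 2 ^ br x z ≤ z / 2 ^ br x z := Nat.div_le_div_right hyz
    exact max_le ((br_le_iff _ _ _).mpr (le_antisymm h1 (h.symm ▸ h2)))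
      ((br_le_iff _ _ _).mpr (le_antisymm h2 (h ▸ h1)))

lemma br_pos {x y : ℕ} (hxy : x < y) : 0 < br x y := by
  rcases Nat.eq_zero_or_pos (br x y) with h0 | h0
  · have := (br_le_iff x y 0).mp h0.le
    simp only [pow_zero, Nat.div_one] at this
    omega
  · exact h0

lemma br_le_of_lt {x y N : ℕ} (hx : x < 2 ^ N) (hy : y < 2 ^ N) : br x y ≤ N := by
  rw [br_le_iff, Nat.div_eq_of_lt hx, Nat.div_eq_of_lt hy]

lemma br_ne {x y z : ℕ} (hxy : x < y) (hyz : y < z) : br x y ≠ br y z := by
  intro h
  have hpos := br_pos hxy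
  obtain ⟨i, hi⟩ : ∃ i, br x y = i + 1 := ⟨br x y - 1, by omega⟩
  have h1 : x / 2 ^ (i + 1) = y / 2 ^ (i + 1) := (br_le_iff _ _ _).mp hi.le
  have h2 : y / 2 ^ (i + 1) = z / 2 ^ (i + 1) := (br_le_iff _ _ _).mp (by omega)
  have h3 : x / 2 ^ i ≠ y / 2 ^ i := fun hh => by
    have := (br_le_iff _ _ _).mpr hh
    omega
  have h4 : y / 2 ^ i ≠ z / 2 ^ i := fun hh => by
    have := (br_le_iff _ _ _).mpr hh
    omega
  have h5 : x / 2 ^ i ≤ y / 2 ^ i := Nat.div_le_div_right hxy.le
  have h6 : y / 2 ^ i ≤ z / 2 ^ i := Nat.div_le_div_right hyz.le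
  rw [pow_succ, ← Nat.div_div_eq_div_mul, ← Nat.div_div_eq_div_mul] at h1 h2
  generalize x / 2 ^ i = a at *
  generalize y / 2 ^ i = b at *
  generalize z / 2 ^ i = c at *
  omega

/-- The stepped-up colour of four increasing points. -/
noncomputable def c4 (φ : Finset ℕ → Bool) (x y z w : ℕ) : Bool :=
  if br x y < br y z ∧ br z w < br y z then false
  else if br y z < br x y ∧ br y z < br z w then true
  else φ {br x y, br y z, br z w}

lemma exists_sorted_triple (I : Finset ℕ) (h : I.card = 3) :
    ∃ i j k, i < j ∧ j < k ∧ I = {i, j, k} := by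
  have h1 := Finset.image_orderEmbOfFin_univ I h
  refine ⟨I.orderEmbOfFin h 0, I.orderEmbOfFin h 1, I.orderEmbOfFin h 2,
    (I.orderEmbOfFin h).strictMono (by decide), (I.orderEmbOfFin h).strictMono (by decide), ?_⟩
  have h2 : (Finset.univ : Finset (Fin 3)) = {0, 1, 2} := by decide
  rw [h2, Finset.image_insert, Finset.image_insert, Finset.image_singleton] at h1
  exact h1.symm

section run

variable {φ : Finset ℕ → Bool} {p m M : ℕ} {s : ℕ → ℕ} {b : Bool}

/-- A set of the form `γ '' [p, p+m)` with all triples of colour `b`. -/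
lemma run_aux (γ : ℕ → ℕ) (hinj : ∀ i j, p ≤ i → i < j → j < p + m → γ i ≠ γ j)
    (hφ : ∀ i j k, p ≤ i → i < j → j < k → k < p + m → φ {γ i, γ j, γ k} = b) :
    ((Finset.Ico p (p + m)).image γ).card = m ∧
      ∀ K ⊆ (Finset.Ico p (p + m)).image γ, K.card = 3 → φ K = b := by
  have hinj' : Set.InjOn γ (Finset.Ico p (p + m) : Finset ℕ) := by
    intro i hi j hj hij
    rw [Finset.mem_coe, Finset.mem_Ico] at hi hj
    by_contra hne
    rcases lt_or_gt_of_ne hne with h | h
    · exact hinj i j hi.1 h hj.2 hij
    · exact hinj j i hj.1 h hi.2 hij.symm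
  refine ⟨by rw [Finset.card_image_of_injOn hinj']; simp, ?_⟩
  intro K hK hKc
  obtain ⟨I, hI, rfl⟩ := Finset.subset_image_iff.mp hK
  have hIc : I.card = 3 := by
    rw [← hKc, Finset.card_image_of_injOn (hinj'.mono hI)]
  obtain ⟨i, j, k, hij, hjk, rfl⟩ := exists_sorted_triple I hIc
  have hi := Finset.mem_Ico.mp (hI (by simp : i ∈ ({i, j, k} : Finset ℕ)))
  have hk := Finset.mem_Ico.mp (hI (by simp : k ∈ ({i, j, k} : Finset ℕ)))
  have := hφ i j k hi.1 hij hjk hk.2
  rw [Finset.image_insert, Finset.image_insert, Finset.image_singleton]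
  exact this

lemma dec_run (hpm : p + m < M) (hs : ∀ i j, i < j → j < M → s i < s j)
    (hmono : ∀ i j k l, i < j → j < k → k < l → l < M → c4 φ (s i) (s j) (s k) (s l) = b)
    (hdec : ∀ i, p ≤ i → i + 1 < p + m → br (s (i + 1)) (s (i + 2)) < br (s i) (s (i + 1))) :
    ((Finset.Ico p (p + m)).image (fun i => br (s i) (s (i + 1)))).card = m ∧
      ∀ K ⊆ (Finset.Ico p (p + m)).image (fun i => br (s i) (s (i + 1))), K.card = 3 → φ K = b := by
  have hanti : ∀ d i, p ≤ i → i + d + 1 < p + m →
      br (s (i + d + 1)) (s (i + d + 2)) < br (s i) (s (i + 1)) := by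
    intro d
    induction d with
    | zero => intro i hi hd; exact hdec i hi hd
    | succ d ih =>
      intro i hi hd
      have h1 := ih i hi (by omega)
      have h2 := hdec (i + d + 1) (by omega) (by omega)
      have e1 : i + (d + 1) + 1 = i + d + 1 + 1 := by omega
      have e2 : i + (d + 1) + 2 = i + d + 1 + 2 := by omega
      rw [e1, e2]
      exact h2.trans h1
  have hanti' : ∀ i j, p ≤ i → i < j → j < p + m → br (s j) (s (j + 1)) < br (s i) (s (i + 1)) := by
    intro i j hi hij hj
    obtain ⟨d, rfl⟩ : ∃ d, j = i + d + 1 := ⟨j - i - 1, by omega⟩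
    exact hanti d i hi hj
  have hbr : ∀ d i, p ≤ i → i + d + 1 ≤ p + m → br (s i) (s (i + d + 1)) = br (s i) (s (i + 1)) := by
    intro d
    induction d with
    | zero => intro i _ _; rfl
    | succ d ih =>
      intro i hi hd
      have h1 := ih i hi (by omega)
      have e1 : i + (d + 1) + 1 = i + d + 1 + 1 := by omega
      rw [e1, br_max (hs i (i + d + 1) (by omega) (by omega)).le
        (hs (i + d + 1) (i + d + 1 + 1) (by omega) (by omega)).le, h1]
      exact max_eq_left (hanti' i (i + d + 1) hi (by omega) (by omega)).le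
  have hbr' : ∀ i j, p ≤ i → i < j → j ≤ p + m → br (s i) (s j) = br (s i) (s (i + 1)) := by
    intro i j hi hij hj
    obtain ⟨d, rfl⟩ : ∃ d, j = i + d + 1 := ⟨j - i - 1, by omega⟩
    exact hbr d i hi hj
  refine run_aux (fun i => br (s i) (s (i + 1))) (fun i j hi hij hj => (hanti' i j hi hij hj).ne') ?_
  intro i j k hi hij hjk hk
  have h := hmono i j k (k + 1) hij hjk (by omega) (by omega)
  unfold c4 at h
  have h1 := hanti' i j hi hij (by omega)
  have h2 := hanti' j k (by omega) hjk hk
  rw [hbr' i j hi hij (by omega), hbr' j k (by omega) hjk (by omega)] at h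
  rw [if_neg (by omega), if_neg (by omega)] at h
  exact h

lemma inc_run (hpm : p + m < M) (hs : ∀ i j, i < j → j < M → s i < s j)
    (hmono : ∀ i j k l, i < j → j < k → k < l → l < M → c4 φ (s i) (s j) (s k) (s l) = b)
    (hinc : ∀ i, p ≤ i → i + 1 < p + m → br (s i) (s (i + 1)) < br (s (i + 1)) (s (i + 2))) :
    ((Finset.Ico p (p + m)).image (fun i => br (s i) (s (i + 1)))).card = m ∧
      ∀ K ⊆ (Finset.Ico p (p + m)).image (fun i => br (s i) (s (i + 1))), K.card = 3 → φ K = b := by
  have hmon : ∀ d i, p ≤ i → i + d + 1 < p + m →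
      br (s i) (s (i + 1)) < br (s (i + d + 1)) (s (i + d + 2)) := by
    intro d
    induction d with
    | zero => intro i hi hd; exact hinc i hi hd
    | succ d ih =>
      intro i hi hd
      have h1 := ih i hi (by omega)
      have h2 := hinc (i + d + 1) (by omega) (by omega)
      have e1 : i + (d + 1) + 1 = i + d + 1 + 1 := by omega
      have e2 : i + (d + 1) + 2 = i + d + 1 + 2 := by omega
      rw [e1, e2]
      exact h1.trans h2
  have hmon' : ∀ i j, p ≤ i → i < j → j < p + m → br (s i) (s (i + 1)) < br (s j) (s (j + 1)) := by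
    intro i j hi hij hj
    obtain ⟨d, rfl⟩ : ∃ d, j = i + d + 1 := ⟨j - i - 1, by omega⟩
    exact hmon d i hi hj
  have hbr : ∀ d i, p ≤ i → i + d + 1 ≤ p + m →
      br (s i) (s (i + d + 1)) = br (s (i + d)) (s (i + d + 1)) := by
    intro d
    induction d with
    | zero => intro i _ _; rfl
    | succ d ih =>
      intro i hi hd
      have h1 := ih i hi (by omega)
      have e1 : i + (d + 1) + 1 = i + d + 1 + 1 := by omega
      have e2 : i + (d + 1) = i + d + 1 := by omega
      rw [e1, e2, br_max (hs i (i + d + 1) (by omega) (by omega)).le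
        (hs (i + d + 1) (i + d + 1 + 1) (by omega) (by omega)).le, h1]
      exact max_eq_right (hmon' (i + d) (i + d + 1) (by omega) (by omega) (by omega)).le
  have hbr' : ∀ i j, p ≤ i → i ≤ j → j + 1 ≤ p + m → br (s i) (s (j + 1)) = br (s j) (s (j + 1)) := by
    intro i j hi hij hj
    obtain ⟨d, rfl⟩ : ∃ d, j = i + d := ⟨j - i, by omega⟩
    exact hbr d i hi hj
  refine run_aux (fun i => br (s i) (s (i + 1))) (fun i j hi hij hj => (hmon' i j hi hij hj).ne) ?_
  intro i j k hi hij hjk hk
  have h := hmono i (i + 1) (j + 1) (k + 1) (by omega) (by omega) (by omega) (by omega)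
  unfold c4 at h
  have h1 := hmon' i j hi hij (by omega)
  have h2 := hmon' j k (by omega) hjk hk
  rw [hbr' (i + 1) j (by omega) (by omega) (by omega),
    hbr' (j + 1) k (by omega) (by omega) (by omega)] at h
  rw [if_neg (by omega), if_neg (by omega)] at h
  exact h

end run

/-- The core of the stepping-up argument. -/
lemma step_core (φ : Finset ℕ → Bool) (m M : ℕ) (hM : 2 * m + 1 ≤ M) (s : ℕ → ℕ)
    (hs : ∀ i j, i < j → j < M → s i < s j) (b : Bool)
    (hmono : ∀ i j k l, i < j → j < k → k < l → l < M → c4 φ (s i) (s j) (s k) (s l) = b) :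
    ∃ Y : Finset ℕ, Y.card = m ∧ (∀ y ∈ Y, ∃ i, i + 1 < M ∧ y = br (s i) (s (i + 1))) ∧
      ∀ K ⊆ Y, K.card = 3 → φ K = b := by
  have hYmem : ∀ p, p + m < M → ∀ y ∈ (Finset.Ico p (p + m)).image (fun i => br (s i) (s (i + 1))),
      ∃ i, i + 1 < M ∧ y = br (s i) (s (i + 1)) := by
    intro p hp y hy
    obtain ⟨i, hi, rfl⟩ := Finset.mem_image.mp hy
    rw [Finset.mem_Ico] at hi
    exact ⟨i, by omega, rfl⟩
  have hne : ∀ i, i + 2 < M → br (s i) (s (i + 1)) ≠ br (s (i + 1)) (s (i + 2)) := fun i hi =>
    br_ne (hs i (i + 1) (by omega) (by omega)) (hs (i + 1) (i + 2) (by omega) (by omega))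
  have hwin : ∀ i, i + 3 < M → c4 φ (s i) (s (i + 1)) (s (i + 2)) (s (i + 3)) = b := fun i hi =>
    hmono i (i + 1) (i + 2) (i + 3) (by omega) (by omega) (by omega) hi
  cases b
  · -- no local minimum
    by_cases hdec : ∃ i, i + 1 < m ∧ br (s (i + 1)) (s (i + 2)) < br (s i) (s (i + 1))
    · obtain ⟨i, him, hi⟩ := hdec
      have hgo : ∀ d, i + d + 2 < M → br (s (i + d + 1)) (s (i + d + 2)) < br (s (i + d)) (s (i + d + 1)) := by
        intro d
        induction d with
        | zero => intro _; exact hi
        | succ d ih =>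
          intro hd
          have h1 := ih (by omega)
          have h2 := hwin (i + d) (by omega)
          have h3 := hne (i + d + 1) (by omega)
          have e1 : i + (d + 1) = i + d + 1 := by omega
          rw [e1]
          have e2 : i + d + 1 + 1 = i + d + 2 := by omega
          have e3 : i + d + 1 + 2 = i + d + 3 := by omega
          rw [e2, e3] at h3 ⊢
          by_contra hcon
          unfold c4 at h2
          rw [if_neg (by omega), if_pos (by omega)] at h2
          simp at h2
      have := dec_run (φ := φ) (p := m) (m := m) (M := M) (s := s) (b := false) (by omega) hs hmono (by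
        intro j hj1 hj2
        have := hgo (j - i) (by omega)
        have e1 : i + (j - i) = j := by omega
        rwa [e1] at this)
      exact ⟨_, this.1, hYmem m (by omega), this.2⟩
    · push Not at hdec
      have := inc_run (φ := φ) (p := 0) (m := m) (M := M) (s := s) (b := false) (by omega) hs hmono (by
        intro j _ hj2
        have h1 := hdec j (by omega)
        have h2 := hne j (by omega)
        omega)
      exact ⟨_, this.1, hYmem 0 (by omega), this.2⟩
  · -- no local maximum
    by_cases hinc : ∃ i, i + 1 < m ∧ br (s i) (s (i + 1)) < br (s (i + 1)) (s (i + 2))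
    · obtain ⟨i, him, hi⟩ := hinc
      have hgo : ∀ d, i + d + 2 < M → br (s (i + d)) (s (i + d + 1)) < br (s (i + d + 1)) (s (i + d + 2)) := by
        intro d
        induction d with
        | zero => intro _; exact hi
        | succ d ih =>
          intro hd
          have h1 := ih (by omega)
          have h2 := hwin (i + d) (by omega)
          have h3 := hne (i + d + 1) (by omega)
          have e1 : i + (d + 1) = i + d + 1 := by omega
          rw [e1]
          have e2 : i + d + 1 + 1 = i + d + 2 := by omega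
          have e3 : i + d + 1 + 2 = i + d + 3 := by omega
          rw [e2, e3] at h3 ⊢
          by_contra hcon
          unfold c4 at h2
          rw [if_pos (by omega)] at h2
          simp at h2
      have := inc_run (φ := φ) (p := m) (m := m) (M := M) (s := s) (b := true) (by omega) hs hmono (by
        intro j hj1 hj2
        have := hgo (j - i) (by omega)
        have e1 : i + (j - i) = j := by omega
        rwa [e1] at this)
      exact ⟨_, this.1, hYmem m (by omega), this.2⟩
    · push Not at hinc
      have := dec_run (φ := φ) (p := 0) (m := m) (M := M) (s := s) (b := true) (by omega) hs hmono (by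
        intro j _ hj2
        have h1 := hinc j (by omega)
        have h2 := hne j (by omega)
        omega)
      exact ⟨_, this.1, hYmem 0 (by omega), this.2⟩

/-- The colour of an increasing list: the stepped-up colour of its first four entries. -/
noncomputable def cl (φ : Finset ℕ → Bool) : List ℕ → Bool
  | x :: y :: z :: w :: _ => c4 φ x y z w
  | _ => false

/-- Stepping up. -/
theorem step_up {N m n t : ℕ} (ht : 4 ≤ t) (hn : n ≤ 2 ^ N) (φ : Finset (Fin N) → Bool)
    (hφ : ∀ Y : Finset (Fin N), Y.card = m → ∀ b : Bool, ∃ K ⊆ Y, K.card = 3 ∧ φ K = b) :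
    ∃ χ : Finset (Fin n) → Bool, IsBalancedAbove t 0 χ (2 * m + 1 + (t - 4)) := by
  classical
  let φ' : Finset ℕ → Bool := fun A => φ (Finset.univ.filter (fun i : Fin N => (i : ℕ) + 1 ∈ A))
  refine ⟨fun e => cl φ' ((e.sort (fun a b => a ≤ b)).map Fin.val), ?_⟩
  intro X hX b
  rw [zero_mul]
  have hgoal : 0 < ((X.powersetCard t).filter
      (fun e => cl φ' ((e.sort (fun a b => a ≤ b)).map Fin.val) = b)).card := by
    rw [Finset.card_pos]
    by_contra hcon
    rw [Finset.not_nonempty_iff_eq_empty, Finset.filter_eq_empty_iff] at hcon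
    set M := X.card - (t - 4) with hMdef
    have hM : 2 * m + 1 ≤ M := by omega
    set f := X.orderEmbOfFin rfl with hf
    let s : ℕ → ℕ := fun i => if h : i < X.card then ((f ⟨i, h⟩ : Fin n) : ℕ) else 0
    have hsv : ∀ i (h : i < X.card), s i = ((f ⟨i, h⟩ : Fin n) : ℕ) := by
      intro i h
      simp only [s]
      rw [dif_pos h]
    have hs : ∀ i j, i < j → j < M → s i < s j := by
      intro i j hij hj
      rw [hsv i (by omega), hsv j (by omega)]
      have : f ⟨i, by omega⟩ < f ⟨j, by omega⟩ := f.strictMono (by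
        rw [Fin.lt_def]; exact hij)
      exact this
    have hmono : ∀ i j k l, i < j → j < k → k < l → l < M → c4 φ' (s i) (s j) (s k) (s l) = !b := by
      intro i j k l hij hjk hkl hl
      set R : Finset (Fin n) := (Finset.univ.filter (fun q : Fin X.card => M ≤ (q : ℕ))).map
        f.toEmbedding with hR
      have hRmem : ∀ x ∈ R, ∃ q : Fin X.card, M ≤ (q : ℕ) ∧ f q = x := by
        intro x hx
        rw [hR, Finset.mem_map] at hx
        obtain ⟨q, hq, hqx⟩ := hx
        exact ⟨q, (Finset.mem_filter.mp hq).2, hqx⟩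
      have hRc : R.card = t - 4 := by
        rw [hR, Finset.card_map]
        have h1 : (Finset.univ.filter (fun q : Fin X.card => M ≤ (q : ℕ))).card =
            (Finset.Ico M X.card).card := by
          refine Finset.card_bij (fun q _ => (q : ℕ)) ?_ ?_ ?_
          · intro q hq
            rw [Finset.mem_filter] at hq
            rw [Finset.mem_Ico]
            exact ⟨hq.2, q.2⟩
          · intro q _ q' _ h
            exact Fin.ext h
          · intro x hx
            rw [Finset.mem_Ico] at hx
            exact ⟨⟨x, hx.2⟩, Finset.mem_filter.mpr ⟨Finset.mem_univ _, hx.1⟩, rfl⟩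
        rw [h1, Nat.card_Ico]
        omega
      have hlt : ∀ (a c : ℕ) (ha : a < X.card) (hc : c < X.card), a < c → f ⟨a, ha⟩ < f ⟨c, hc⟩ := by
        intro a c ha hc hac
        exact f.strictMono (by rw [Fin.lt_def]; exact hac)
      have hltR : ∀ (a : ℕ) (ha : a < X.card), a < M → ∀ x ∈ R, f ⟨a, ha⟩ < x := by
        intro a ha haM x hx
        obtain ⟨q, hq, rfl⟩ := hRmem x hx
        exact hlt a q ha q.2 (by omega)
      set xi := f ⟨i, by omega⟩ with hxi
      set xj := f ⟨j, by omega⟩ with hxj
      set xk := f ⟨k, by omega⟩ with hxk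
      set xl := f ⟨l, by omega⟩ with hxl
      have h_ij : xi < xj := hlt i j _ _ hij
      have h_jk : xj < xk := hlt j k _ _ hjk
      have h_kl : xk < xl := hlt k l _ _ hkl
      have h_lR : ∀ x ∈ R, xl < x := hltR l _ hl
      have h4 : ∀ x ∈ R, xl ≤ x := fun x hx => (h_lR x hx).le
      have h4' : xl ∉ R := fun hx => lt_irrefl _ (h_lR _ hx)
      have h3 : ∀ x ∈ insert xl R, xk < x := by
        intro x hx
        rcases Finset.mem_insert.mp hx with rfl | hx
        · exact h_kl
        · exact h_kl.trans (h_lR x hx)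
      have h2 : ∀ x ∈ insert xk (insert xl R), xj < x := by
        intro x hx
        rcases Finset.mem_insert.mp hx with rfl | hx
        · exact h_jk
        · exact h_jk.trans (h3 x hx)
      have h1 : ∀ x ∈ insert xj (insert xk (insert xl R)), xi < x := by
        intro x hx
        rcases Finset.mem_insert.mp hx with rfl | hx
        · exact h_ij
        · exact h_ij.trans (h2 x hx)
      have h3' : xk ∉ insert xl R := fun hx => lt_irrefl _ (h3 _ hx)
      have h2' : xj ∉ insert xk (insert xl R) := fun hx => lt_irrefl _ (h2 _ hx)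
      have h1' : xi ∉ insert xj (insert xk (insert xl R)) := fun hx => lt_irrefl _ (h1 _ hx)
      have hsort : (insert xi (insert xj (insert xk (insert xl R)))).sort (fun a b => a ≤ b) =
          xi :: xj :: xk :: xl :: R.sort (fun a b => a ≤ b) := by
        rw [Finset.sort_insert (fun a b => a ≤ b) (fun x hx => (h1 x hx).le) h1',
          Finset.sort_insert (fun a b => a ≤ b) (fun x hx => (h2 x hx).le) h2',
          Finset.sort_insert (fun a b => a ≤ b) (fun x hx => (h3 x hx).le) h3',
          Finset.sort_insert (fun a b => a ≤ b) h4 h4']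
      have hRX : R ⊆ X := by
        intro x hx
        obtain ⟨q, _, rfl⟩ := hRmem x hx
        exact Finset.orderEmbOfFin_mem X rfl q
      have hcard : (insert xi (insert xj (insert xk (insert xl R)))).card = t := by
        rw [Finset.card_insert_of_notMem h1', Finset.card_insert_of_notMem h2',
          Finset.card_insert_of_notMem h3', Finset.card_insert_of_notMem h4', hRc]
        omega
      have hmem : insert xi (insert xj (insert xk (insert xl R))) ∈ X.powersetCard t := by
        rw [Finset.mem_powersetCard]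
        refine ⟨?_, hcard⟩
        have hX' : ∀ q : Fin X.card, f q ∈ X := fun q => Finset.orderEmbOfFin_mem X rfl q
        exact Finset.insert_subset (hX' _) (Finset.insert_subset (hX' _)
          (Finset.insert_subset (hX' _) (Finset.insert_subset (hX' _) hRX)))
      have h5 := hcon hmem
      rw [hsort] at h5
      simp only [List.map_cons, cl] at h5
      rw [hsv i (by omega), hsv j (by omega), hsv k (by omega), hsv l (by omega)]
      rw [← hxi, ← hxj, ← hxk, ← hxl]
      exact Bool.eq_not_of_ne h5
    obtain ⟨Y, hYc, hYm, hYK⟩ := step_core φ' m M hM s hs (!b) hmono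
    have hYr : ∀ y ∈ Y, 1 ≤ y ∧ y ≤ N := by
      intro y hy
      obtain ⟨i, hi, rfl⟩ := hYm y hy
      have hi1 : i < X.card := by omega
      have hi2 : i + 1 < X.card := by omega
      refine ⟨br_pos (hs i (i + 1) (by omega) hi), br_le_of_lt ?_ ?_⟩
      · rw [hsv i hi1]
        exact lt_of_lt_of_le (f ⟨i, hi1⟩).2 hn
      · rw [hsv (i + 1) hi2]
        exact lt_of_lt_of_le (f ⟨i + 1, hi2⟩).2 hn
    let sh : Fin N ↪ ℕ := ⟨fun i => (i : ℕ) + 1, fun i j h => Fin.ext (by simpa using h)⟩
    have hsh : ∀ i : Fin N, sh i = (i : ℕ) + 1 := fun i => rfl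
    have hback : ∀ A : Finset ℕ, (∀ y ∈ A, 1 ≤ y ∧ y ≤ N) →
        (Finset.univ.filter (fun i : Fin N => (i : ℕ) + 1 ∈ A)).map sh = A := by
      intro A hA
      ext y
      rw [Finset.mem_map]
      constructor
      · rintro ⟨i, hi, rfl⟩
        rw [hsh]
        exact (Finset.mem_filter.mp hi).2
      · intro hy
        have hy1 := hA y hy
        refine ⟨⟨y - 1, by omega⟩, ?_, ?_⟩
        · rw [Finset.mem_filter]
          refine ⟨Finset.mem_univ _, ?_⟩
          change y - 1 + 1 ∈ A
          rwa [Nat.sub_add_cancel hy1.1]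
        · rw [hsh]
          change y - 1 + 1 = y
          omega
    obtain ⟨K, hK, hKc, hKb⟩ := hφ (Finset.univ.filter (fun i : Fin N => (i : ℕ) + 1 ∈ Y)) (by
      rw [← Finset.card_map sh, hback Y hYr, hYc]) b
    have h6 := hYK (K.map sh) (by
      rw [← hback Y hYr]
      exact Finset.map_subset_map.mpr hK) (by rw [Finset.card_map, hKc])
    simp only [φ'] at h6
    have h7 : (Finset.univ.filter (fun i : Fin N => (i : ℕ) + 1 ∈ K.map sh)) = K := by
      ext i
      rw [Finset.mem_filter, Finset.mem_map]
      constructor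
      · rintro ⟨_, j, hj, hji⟩
        rw [hsh] at hji
        have : j = i := Fin.ext (by omega)
        rwa [← this]
      · intro hi
        exact ⟨Finset.mem_univ _, i, hi, rfl⟩
    rw [h7, hKb] at h6
    cases b <;> simp at h6
  exact_mod_cast hgoal

end Pool.Agent.HDisc
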