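import Mathlib
import Pool.Agent.HDisc.Defs
import Pool.Agent.HDisc.Lower
import Pool.Agent.HDisc.Upper
import Pool.Agent.HDisc.StepUp

/-!
Asymptotic forms of the bounds.
-/

set_option autoImplicit false

namespace Pool.Agent.HDisc

open Finset Filter Asymptotics

lemma rpow_pow_cancel {x : ℝ} (hx : 0 ≤ x) {t : ℕ} (ht : 2 ≤ t) :
    (x ^ ((1 : ℝ) / ((t : ℝ) - 1))) ^ (t - 1) = x := by
  rw [← Real.rpow_natCast, ← Real.rpow_mul hx]
  have h2 : (2 : ℝ) ≤ t := by exact_mod_cast ht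
  have h3 : (1 : ℝ) / ((t : ℝ) - 1) * ((t - 1 : ℕ) : ℝ) = 1 := by
    rw [Nat.cast_sub (by omega), Nat.cast_one]
    exact one_div_mul_cancel (by linarith)
  rw [h3, Real.rpow_one]

lemma exponent_pos {t : ℕ} (ht : 2 ≤ t) : 0 < (1 : ℝ) / ((t : ℝ) - 1) := by
  have h2 : (2 : ℝ) ≤ t := by exact_mod_cast ht
  apply one_div_pos.mpr
  linarith

lemma tendsto_aux {t : ℕ} (ht : 2 ≤ t) {c : ℝ} (hc : 0 < c) :
    Tendsto (fun n : ℕ => (Real.log n / c) ^ ((1 : ℝ) / ((t : ℝ) - 1))) atTop atTop := by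
  have h1 : Tendsto (fun n : ℕ => Real.log n) atTop atTop :=
    Real.tendsto_log_atTop.comp tendsto_natCast_atTop_atTop
  exact (tendsto_rpow_atTop (exponent_pos ht)).comp (h1.atTop_div_const hc)

lemma log_nonneg_nat (n : ℕ) : 0 ≤ Real.log n := Real.log_natCast_nonneg n

theorem upper_isBigO {t : ℕ} (ht : 2 ≤ t) {α : ℝ} (hα : α < 1 / 2) :
    (fun n : ℕ => (F t n α : ℝ)) =O[atTop]
      (fun n : ℕ => (Real.log n) ^ ((1 : ℝ) / ((t : ℝ) - 1))) := by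
  obtain ⟨κ, f0, hκ, h⟩ := upper t (by omega) α hα
  refine IsBigO.of_bound (2 * (1 / κ) ^ ((1 : ℝ) / ((t : ℝ) - 1))) ?_
  filter_upwards [(tendsto_aux ht hκ).eventually_ge_atTop (max (f0 : ℝ) 1)] with n hn
  have hL := log_nonneg_nat n
  set g := (Real.log n / κ) ^ ((1 : ℝ) / ((t : ℝ) - 1)) with hg
  have hg0 : (f0 : ℝ) ≤ g := (le_max_left _ _).trans hn
  have hg1 : 1 ≤ g := (le_max_right _ _).trans hn
  have hfle : g ≤ ⌈g⌉₊ := Nat.le_ceil g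
  have hf0 : f0 ≤ ⌈g⌉₊ := by
    have : (f0 : ℝ) ≤ ⌈g⌉₊ := hg0.trans hfle
    exact_mod_cast this
  have hlog : Real.log n ≤ κ * ((⌈g⌉₊ : ℕ) : ℝ) ^ (t - 1) := by
    have h1 : g ^ (t - 1) ≤ ((⌈g⌉₊ : ℕ) : ℝ) ^ (t - 1) :=
      pow_le_pow_left₀ (by linarith) hfle _
    rw [hg, rpow_pow_cancel (by positivity) ht] at h1
    calc Real.log n = κ * (Real.log n / κ) := by field_simp
      _ ≤ _ := mul_le_mul_of_nonneg_left h1 hκ.le
  have hF : F t n α ≤ ⌈g⌉₊ := Nat.sInf_le (h _ n hf0 hlog)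
  have hF' : (F t n α : ℝ) ≤ g + 1 := by
    have h2 : ((⌈g⌉₊ : ℕ) : ℝ) < g + 1 := Nat.ceil_lt_add_one (by linarith)
    have h3 : (F t n α : ℝ) ≤ ((⌈g⌉₊ : ℕ) : ℝ) := by exact_mod_cast hF
    linarith
  rw [Real.norm_of_nonneg (Nat.cast_nonneg _), Real.norm_of_nonneg (Real.rpow_nonneg hL _)]
  calc (F t n α : ℝ) ≤ 2 * g := by linarith
    _ = 2 * (1 / κ) ^ ((1 : ℝ) / ((t : ℝ) - 1)) * (Real.log n) ^ ((1 : ℝ) / ((t : ℝ) - 1)) := by
        rw [hg, mul_assoc, ← Real.mul_rpow (by positivity) hL]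
        congr 2
        ring

theorem lower_isBigO {t : ℕ} (ht : 2 ≤ t) {α : ℝ} (hα : 0 < α) :
    (fun n : ℕ => (Real.log n) ^ ((1 : ℝ) / ((t : ℝ) - 1))) =O[atTop]
      (fun n : ℕ => (F t n α : ℝ)) := by
  obtain ⟨A, d, hA, hd, h⟩ := lower t ht α hα
  have hAR : (0 : ℝ) < A := by exact_mod_cast hA
  refine IsBigO.of_bound (2 * (2 * (A : ℝ)) ^ ((1 : ℝ) / ((t : ℝ) - 1))) ?_
  filter_upwards [(tendsto_aux ht (show (0 : ℝ) < 2 * A by positivity)).eventually_ge_atTop 2,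
    Filter.eventually_ge_atTop (d ^ 2)] with n hn hnd
  have hL := log_nonneg_nat n
  set g := (Real.log n / (2 * A)) ^ ((1 : ℝ) / ((t : ℝ) - 1)) with hg
  have hgpos : 0 ≤ g := by linarith
  have hfl : ((⌊g⌋₊ : ℕ) : ℝ) ≤ g := Nat.floor_le hgpos
  have hfl2 : g < ((⌊g⌋₊ : ℕ) : ℝ) + 1 := Nat.lt_floor_add_one g
  have hspos : 0 < ⌊g⌋₊ := by
    have : (0 : ℝ) < ((⌊g⌋₊ : ℕ) : ℝ) := by linarith
    exact_mod_cast this
  have hnpos : 0 < n := lt_of_lt_of_le (by positivity) hnd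
  have hnR : (0 : ℝ) < n := by exact_mod_cast hnpos
  have hcond : d * 2 ^ (A * ⌊g⌋₊ ^ (t - 1)) ≤ n := by
    have h1 : (((A * ⌊g⌋₊ ^ (t - 1) : ℕ)) : ℝ) ≤ Real.log n / 2 := by
      push_cast
      have h2 : ((⌊g⌋₊ : ℕ) : ℝ) ^ (t - 1) ≤ g ^ (t - 1) :=
        pow_le_pow_left₀ (Nat.cast_nonneg _) hfl _
      rw [hg, rpow_pow_cancel (by positivity) ht] at h2
      calc (A : ℝ) * ((⌊g⌋₊ : ℕ) : ℝ) ^ (t - 1) ≤ A * (Real.log n / (2 * A)) :=
            mul_le_mul_of_nonneg_left h2 hAR.le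
        _ = Real.log n / 2 := by field_simp
    have h3 : (2 : ℝ) ^ (A * ⌊g⌋₊ ^ (t - 1)) ≤ Real.exp (Real.log n / 2) := by
      have h4 : (2 : ℝ) ≤ Real.exp 1 := by
        have := Real.add_one_le_exp (1 : ℝ)
        linarith
      calc (2 : ℝ) ^ (A * ⌊g⌋₊ ^ (t - 1)) ≤ (Real.exp 1) ^ (A * ⌊g⌋₊ ^ (t - 1)) :=
            pow_le_pow_left₀ (by norm_num) h4 _
        _ = Real.exp (((A * ⌊g⌋₊ ^ (t - 1) : ℕ) : ℝ)) := by
            rw [← Real.exp_nat_mul, mul_one]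
        _ ≤ _ := Real.exp_le_exp.mpr h1
    have h5 : (Real.exp (Real.log n / 2)) ^ 2 = n := by
      rw [← Real.exp_nat_mul]
      have : ((2 : ℕ) : ℝ) * (Real.log n / 2) = Real.log n := by push_cast; ring
      rw [this, Real.exp_log hnR]
    have h6 : (d : ℝ) ≤ Real.exp (Real.log n / 2) := by
      have h7 : (d : ℝ) ^ 2 ≤ (Real.exp (Real.log n / 2)) ^ 2 := by
        rw [h5]
        exact_mod_cast hnd
      exact le_of_sq_le_sq h7 (Real.exp_pos _).le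
    have h8 : ((d * 2 ^ (A * ⌊g⌋₊ ^ (t - 1)) : ℕ) : ℝ) ≤ n := by
      push_cast
      calc (d : ℝ) * 2 ^ (A * ⌊g⌋₊ ^ (t - 1)) ≤
            Real.exp (Real.log n / 2) * Real.exp (Real.log n / 2) :=
            mul_le_mul h6 h3 (by positivity) (Real.exp_pos _).le
        _ = n := by rw [← pow_two, h5]
    exact_mod_cast h8
  have hs := h _ n hspos hcond
  have hsR : ((⌊g⌋₊ : ℕ) : ℝ) ≤ (F t n α : ℝ) := by exact_mod_cast hs
  rw [Real.norm_of_nonneg (Nat.cast_nonneg _), Real.norm_of_nonneg (Real.rpow_nonneg hL _)]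
  have hgF : g ≤ 2 * (F t n α : ℝ) := by linarith
  calc (Real.log n) ^ ((1 : ℝ) / ((t : ℝ) - 1)) =
        (2 * (A : ℝ)) ^ ((1 : ℝ) / ((t : ℝ) - 1)) * g := by
        rw [hg, ← Real.mul_rpow (by positivity) (by positivity)]
        congr 1
        field_simp
    _ ≤ (2 * (A : ℝ)) ^ ((1 : ℝ) / ((t : ℝ) - 1)) * (2 * (F t n α : ℝ)) :=
        mul_le_mul_of_nonneg_left hgF (by positivity)
    _ = _ := by ring

theorem theta {t : ℕ} (ht : 2 ≤ t) {α : ℝ} (hα : 0 < α) (hα' : α < 1 / 2) :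
    (fun n : ℕ => (F t n α : ℝ)) =Θ[atTop]
      (fun n : ℕ => (Real.log n) ^ ((1 : ℝ) / ((t : ℝ) - 1))) :=
  ⟨upper_isBigO ht hα', lower_isBigO ht hα⟩

/-- The Ramsey case `α = 0`, `t ≥ 4`: a bound by stepping up from triples. -/
lemma ramsey_upper {t : ℕ} (ht : 4 ≤ t) : ∃ (κ : ℝ) (f0 : ℕ), 0 < κ ∧ ∀ f N n : ℕ, f0 ≤ f →
    Real.log N ≤ κ * (f : ℝ) ^ 2 → n ≤ 2 ^ N → F t n 0 ≤ 2 * f + 1 + (t - 4) := by
  obtain ⟨κ, f0, hκ, h⟩ := upper 3 (by norm_num) 0 (by norm_num)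
  refine ⟨κ, f0, hκ, ?_⟩
  intro f N n hf hN hn
  obtain ⟨φ, hφ⟩ := h f N hf hN
  refine Nat.sInf_le (step_up (m := f) ht hn φ ?_)
  intro Y hY b
  have h1 := hφ Y hY.ge b
  rw [zero_mul] at h1
  have h2 : 0 < ((Y.powersetCard 3).filter (fun e => φ e = b)).card := by exact_mod_cast h1
  obtain ⟨K, hK⟩ := Finset.card_pos.mp h2
  rw [Finset.mem_filter, Finset.mem_powersetCard] at hK
  exact ⟨K, hK.1.1, hK.1.2, hK.2⟩

theorem ramsey_isLittleO {t : ℕ} (ht : 4 ≤ t) :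
    (fun n : ℕ => (F t n 0 : ℝ)) =o[atTop]
      (fun n : ℕ => (Real.log n) ^ ((1 : ℝ) / ((t : ℝ) - 1))) := by
  obtain ⟨κ, f0, hκ, h⟩ := ramsey_upper ht
  have ht2 : 2 ≤ t := by omega
  set r := (1 : ℝ) / ((t : ℝ) - 1) with hr
  have hr0 : 0 < r := exponent_pos ht2
  have hlogt : Tendsto (fun n : ℕ => Real.log n) atTop atTop :=
    Real.tendsto_log_atTop.comp tendsto_natCast_atTop_atTop
  have hy : Tendsto (fun n : ℕ => (Real.log n) ^ (r / 2)) atTop atTop :=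
    (tendsto_rpow_atTop (by positivity)).comp hlogt
  rw [isLittleO_iff]
  intro ε hε
  set C := (2 : ℝ) + 2 + 2 * f0 + 1 + t with hC
  filter_upwards [hlogt.eventually_ge_atTop 1, hy.eventually_ge_atTop 1,
    hy.eventually_ge_atTop ((3 : ℝ) ^ (r / 2) / (r / 2) / κ), hy.eventually_ge_atTop (C / ε),
    Filter.eventually_ge_atTop 2] with n h1 h2 h3 h4 hn2
  set L := Real.log n with hL
  set y := L ^ (r / 2) with hydef
  have hy2 : L ^ r = y ^ 2 := by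
    rw [hydef, ← Real.rpow_natCast, ← Real.rpow_mul (by linarith)]
    congr 1
    push_cast
    ring
  set f := max f0 ⌈y⌉₊ with hf
  have hyf : y ≤ f := (Nat.le_ceil y).trans (by exact_mod_cast le_max_right _ _)
  have hN : Real.log ((Nat.clog 2 n : ℕ) : ℝ) ≤ κ * (f : ℝ) ^ 2 := by
    have hcl1 : 0 < Nat.clog 2 n := Nat.clog_pos (by norm_num) hn2
    have hcl : ((Nat.clog 2 n : ℕ) : ℝ) ≤ 3 * L := by
      have h5 : 2 ^ (Nat.clog 2 n - 1) < n := by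
        have := Nat.pow_pred_clog_lt_self (b := 2) (by norm_num) (x := n) (by omega)
        exact this
      have h6 : ((2 ^ (Nat.clog 2 n - 1) : ℕ) : ℝ) < n := by exact_mod_cast h5
      have h7 : ((Nat.clog 2 n - 1 : ℕ) : ℝ) * Real.log 2 ≤ L := by
        rw [← Real.log_pow, hL]
        apply Real.log_le_log (by positivity)
        push_cast at h6
        exact h6.le
      have h8 : (1 / 2 : ℝ) ≤ Real.log 2 := by
        have := Real.log_two_gt_d9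
        linarith
      have h9 : ((Nat.clog 2 n - 1 : ℕ) : ℝ) = (Nat.clog 2 n : ℝ) - 1 := by
        rw [Nat.cast_sub hcl1, Nat.cast_one]
      have h10 : (0 : ℝ) ≤ ((Nat.clog 2 n - 1 : ℕ) : ℝ) := Nat.cast_nonneg _
      nlinarith
    have hclR : (0 : ℝ) < ((Nat.clog 2 n : ℕ) : ℝ) := by exact_mod_cast hcl1
    calc Real.log ((Nat.clog 2 n : ℕ) : ℝ) ≤ Real.log (3 * L) := Real.log_le_log hclR hcl
      _ ≤ (3 * L) ^ (r / 2) / (r / 2) := Real.log_le_rpow_div (by linarith) (by positivity)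
      _ = ((3 : ℝ) ^ (r / 2) / (r / 2) / κ) * κ * y := by
          rw [Real.mul_rpow (by norm_num) (by linarith), ← hydef]
          field_simp
      _ ≤ y * κ * y := by gcongr
      _ = κ * y ^ 2 := by ring
      _ ≤ κ * (f : ℝ) ^ 2 := by gcongr
  have hF := h f (Nat.clog 2 n) n (le_max_left _ _) hN (Nat.le_pow_clog (by norm_num) n)
  have hFR : (F t n 0 : ℝ) ≤ 2 * f + 1 + t := by
    have h11 : F t n 0 ≤ 2 * f + 1 + t := by omega
    exact_mod_cast h11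
  have hfle : (f : ℝ) ≤ f0 + (y + 1) := by
    have h12 : f ≤ f0 + ⌈y⌉₊ := by
      rw [hf]; exact max_le (Nat.le_add_right _ _) (Nat.le_add_left _ _)
    have h13 : ((⌈y⌉₊ : ℕ) : ℝ) < y + 1 := Nat.ceil_lt_add_one (by linarith)
    have h14 : (f : ℝ) ≤ f0 + (⌈y⌉₊ : ℕ) := by exact_mod_cast h12
    linarith
  rw [Real.norm_of_nonneg (Nat.cast_nonneg _),
    Real.norm_of_nonneg (Real.rpow_nonneg (by linarith) _), hy2]
  rw [div_le_iff₀ hε] at h4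
  have hCpos : 0 ≤ C := by rw [hC]; positivity
  have hf0 : (0 : ℝ) ≤ f0 := Nat.cast_nonneg _
  have htR : (0 : ℝ) ≤ t := Nat.cast_nonneg _
  calc (F t n 0 : ℝ) ≤ 2 * y + (2 + 2 * f0 + 1 + t) * 1 := by linarith
    _ ≤ 2 * y + (2 + 2 * f0 + 1 + t) * y := by gcongr
    _ = C * y := by rw [hC]; ring
    _ ≤ (y * ε) * y := by gcongr
    _ = ε * y ^ 2 := by ring

end Pool.Agent.HDisc
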